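import Pool.Agent.Q138.FM.Shift

/-!
# The mean law
-/

set_option autoImplicit false

namespace Pool.Agent.Q138.FM

open Finset Filter Topology MeasureTheory Pool.Agent.H305R2

/-- the threshold `2 ^ (m + 1)` -/
def P (m : ℕ) : ℕ := 2 ^ (m + 1)

lemma P_cast (m : ℕ) : ((P m : ℕ) : ℝ) = 2 * 2 ^ m := by
  unfold P; push_cast; ring

lemma P_tendsto : Tendsto P atTop atTop := by
  unfold P
  exact (tendsto_pow_atTop_atTop_of_one_lt (r := (2 : ℕ)) (by norm_num)).comp (tendsto_add_atTop_nat 1)

lemma log_P (m : ℕ) : Real.log (P m) = (m + 1) * Real.log 2 := by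
  unfold P
  push_cast
  rw [Real.log_pow]
  push_cast
  ring

/-- the weight `(m + 1) / 2 ^ m` -/
noncomputable def wt (m : ℕ) : ℝ := (m + 1) / 2 ^ m

lemma wt_pos (m : ℕ) : 0 < wt m := by unfold wt; positivity

lemma logP_div (m : ℕ) : Real.log (P m) / P m = Real.log 2 / 2 * wt m := by
  rw [log_P, P_cast]
  unfold wt
  field_simp

/-- the measure of the `τ` in `(s, t]` for which the condition at level `m` holds -/
noncomputable def mu (m : ℕ) (s t : ℝ) : ℝ := ∫ τ in Set.Ioc s t, fp (P m) (2 ^ m * τ)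

lemma scale (f : ℝ → ℝ) (m : ℕ) {s t : ℝ} (hst : s ≤ t) :
    ∫ τ in Set.Ioc s t, f (2 ^ m * τ) = (2 ^ m)⁻¹ * ∫ y in Set.Ioc (2 ^ m * s) (2 ^ m * t), f y := by
  have h2 : (0 : ℝ) < 2 ^ m := by positivity
  rw [← intervalIntegral.integral_of_le hst,
    ← intervalIntegral.integral_of_le (mul_le_mul_of_nonneg_left hst h2.le),
    intervalIntegral.integral_comp_mul_left f h2.ne', smul_eq_mul]

/-- pointwise limit of the unit windows -/
lemma LL_lim {τ : ℝ} (hτ : 0 < τ) :
    Tendsto (fun m : ℕ => LL (P m) (2 ^ m * τ) / wt m) atTop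
      (𝓝 (Real.exp Real.eulerMascheroniConstant * Real.log 2 * τ⁻¹)) := by
  have h1 := window_asymp (a := τ / 2) (by positivity) (y := fun q : ℕ => τ / 2 * q) (by
    refine tendsto_const_nhds.congr' ?_
    filter_upwards [eventually_ge_atTop 1] with q hq
    have : (0 : ℝ) < q := by exact_mod_cast hq
    field_simp)
  have h2 := (h1.comp P_tendsto).mul_const (Real.log 2 / 2)
  have e : Real.exp Real.eulerMascheroniConstant / (τ / 2) * (Real.log 2 / 2) =
      Real.exp Real.eulerMascheroniConstant * Real.log 2 * τ⁻¹ := by field_simp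
  rw [e] at h2
  refine h2.congr fun m => ?_
  simp only [Function.comp]
  have hl : 0 < Real.log 2 := Real.log_pos one_lt_two
  have h3 : (P m : ℝ) / Real.log (P m) * (Real.log 2 / 2) = (wt m)⁻¹ := by
    have h4 := logP_div m
    have hP : (0 : ℝ) < P m := by rw [P_cast]; positivity
    have hlP : 0 < Real.log (P m) := by rw [log_P]; positivity
    have hw := wt_pos m
    rw [div_eq_iff hP.ne'] at h4
    rw [h4]
    field_simp
  have h5 : τ / 2 * (P m : ℝ) = 2 ^ m * τ := by rw [P_cast]; ring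
  rw [h5, mul_assoc, h3]
  unfold LL
  rfl

/-- the mean law for the function `ff` -/
lemma mean_ff {s t : ℝ} (hs : 0 < s) (hst : s ≤ t) :
    Tendsto (fun m : ℕ => (∫ τ in Set.Ioc s t, ff (P m) (2 ^ m * τ)) / wt m) atTop
      (𝓝 (Real.exp Real.eulerMascheroniConstant * Real.log 2 * (Real.log t - Real.log s))) := by
  obtain ⟨K, hK, hb⟩ := bounds (c := s / 4) (by positivity)
  have hb' := P_tendsto.eventually hb
  have hpow : Tendsto (fun m : ℕ => (2 : ℝ) ^ m) atTop atTop :=
    tendsto_pow_atTop_atTop_of_one_lt one_lt_two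
  have hl : 0 < Real.log 2 := Real.log_pos one_lt_two
  -- the unit windows
  have h1 : Tendsto (fun m : ℕ => ∫ τ in Set.Ioc s t, LL (P m) (2 ^ m * τ) / wt m) atTop
      (𝓝 (∫ τ in Set.Ioc s t, Real.exp Real.eulerMascheroniConstant * Real.log 2 * τ⁻¹)) := by
    refine tendsto_integral_filter_of_dominated_convergence (fun _ => K * (Real.log 2 / 2)) ?_ ?_ ?_ ?_
    · refine Eventually.of_forall fun m => ?_
      refine Continuous.aestronglyMeasurable ?_
      exact ((LL_cont (P m)).comp (continuous_const.mul continuous_id)).div_const _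
    · filter_upwards [hb'] with m hm
      refine (ae_restrict_iff' measurableSet_Ioc).2 (Eventually.of_forall fun τ hτ => ?_)
      have hw := wt_pos m
      have h2 : s / 4 * (P m : ℝ) ≤ 2 ^ m * τ := by
        rw [P_cast]
        have h2m : (0 : ℝ) < 2 ^ m := by positivity
        have := mul_le_mul_of_nonneg_left hτ.1.le h2m.le
        nlinarith
      have h3 := hm.1 _ h2
      rw [logP_div] at h3
      rw [Real.norm_of_nonneg (div_nonneg (LL_nonneg _ _) hw.le), div_le_iff₀ hw]
      linarith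
    · exact integrableOn_const (by simp)
    · refine (ae_restrict_iff' measurableSet_Ioc).2 (Eventually.of_forall fun τ hτ => ?_)
      exact LL_lim (hs.trans hτ.1)
  have hlim : ∫ τ in Set.Ioc s t, Real.exp Real.eulerMascheroniConstant * Real.log 2 * τ⁻¹ =
      Real.exp Real.eulerMascheroniConstant * Real.log 2 * (Real.log t - Real.log s) := by
    rw [integral_const_mul, ← intervalIntegral.integral_of_le hst,
      integral_inv_of_pos hs (hs.trans_le hst), Real.log_div (hs.trans_le hst).ne' hs.ne']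
  rw [hlim] at h1
  -- the difference
  have h2 : Tendsto (fun m : ℕ => (∫ τ in Set.Ioc s t, gg (P m) (2 ^ m * τ)) / wt m) atTop (𝓝 0) := by
    have h3 : Tendsto (fun m : ℕ => (2 ^ m : ℝ)⁻¹ * (K * (Real.log 2 / 2))) atTop (𝓝 0) := by
      have := (tendsto_inv_atTop_zero.comp hpow).mul_const (K * (Real.log 2 / 2))
      rw [zero_mul] at this
      exact this
    refine squeeze_zero_norm' ?_ h3
    filter_upwards [hb', hpow.eventually_ge_atTop (2 / s)] with m hm hm2
    have hw := wt_pos m
    have h2m : (0 : ℝ) < 2 ^ m := by positivity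
    rw [scale _ _ hst, norm_div, norm_mul, Real.norm_of_nonneg (inv_nonneg.2 h2m.le),
      Real.norm_of_nonneg hw.le, Real.norm_eq_abs, div_le_iff₀ hw]
    have h4 : s / 4 * (P m : ℝ) + 1 ≤ 2 ^ m * s := by
      rw [P_cast]
      rw [div_le_iff₀ hs] at hm2
      nlinarith
    have h5 := hm.2.2.1 _ _ h4 (mul_le_mul_of_nonneg_left hst h2m.le)
    rw [logP_div] at h5
    calc (2 ^ m : ℝ)⁻¹ * |∫ y in Set.Ioc (2 ^ m * s) (2 ^ m * t), gg (P m) y| ≤
        (2 ^ m : ℝ)⁻¹ * (K * (Real.log 2 / 2 * wt m)) :=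
          mul_le_mul_of_nonneg_left h5 (inv_nonneg.2 h2m.le)
      _ = _ := by ring
  have h3 := h1.add h2
  rw [add_zero] at h3
  refine h3.congr fun m => ?_
  have hL : IntegrableOn (fun τ => LL (P m) (2 ^ m * τ) / wt m) (Set.Ioc s t) := by
    have hc : Continuous (fun τ : ℝ => LL (P m) (2 ^ m * τ) / wt m) :=
      ((LL_cont (P m)).comp (continuous_const.mul continuous_id)).div_const _
    exact (hc.integrableOn_Icc (a := s) (b := t)).mono_set Set.Ioc_subset_Icc_self
  have hG : IntegrableOn (fun τ => gg (P m) (2 ^ m * τ) / wt m) (Set.Ioc s t) := by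
    refine Measure.integrableOn_of_bounded (M := 1 / wt m) (by simp) ?_ ?_
    · exact (((measurable_gg (P m)).comp (measurable_const.mul measurable_id)).div_const
        _).aestronglyMeasurable
    · refine Eventually.of_forall fun τ => ?_
      rw [norm_div, Real.norm_of_nonneg (wt_pos m).le, Real.norm_eq_abs]
      exact div_le_div_of_nonneg_right (abs_gg_le_one _ _) (wt_pos m).le
  rw [← integral_div, ← integral_div, ← integral_add hL hG]
  refine setIntegral_congr_fun measurableSet_Ioc fun τ _ => ?_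
  unfold gg
  ring

/-- the integrals of `ff` and `fp` over long windows -/
lemma ff_fp (p : ℕ) {u v : ℝ} (hu : 0 ≤ u) (huv : u ≤ v) :
    |(∫ y in Set.Ioc u v, fp p y) - ∫ y in Set.Ioc u v, ff p y| ≤
      Real.exp (-u) * (v - u + 4) := by
  obtain ⟨h1, h2⟩ := conv p u v
  have hsub : ∀ a b : ℝ, IntegrableOn (ff p) (Set.Ioc a b) := integrableOn_ff p
  have e1 : ∀ a b : ℝ, a ≤ b → ∫ y in Set.Ioc a b, ff p y = FF p b - FF p a := fun a b h =>
    (FF_sub p h).symm
  have hE0 := Real.exp_pos (-u)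
  have hE1 : Real.exp (-u) ≤ 1 := Real.exp_le_one_iff.2 (by linarith)
  have hv : Real.exp (-v) ≤ Real.exp (-u) := Real.exp_le_exp.2 (by linarith)
  have hpuv : ph u ≤ ph v := ph_mono.monotone huv
  rw [e1 _ _ hpuv] at h1 h2
  rw [e1 _ _ huv]
  have h3 := FF_sub_le p (le_ph u)
  have h4 := FF_sub_le p (le_ph v)
  have h5 := ph_le u
  have h6 := ph_le v
  have h7 := FF_mono p (le_ph u)
  have h8 := FF_mono p (le_ph v)
  have h9 := FF_sub_le p hpuv
  have h10 := FF_mono p hpuv
  have h11 := le_ph u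
  rw [abs_le]
  constructor
  · nlinarith
  · have h12 : (1 + Real.exp (-u)) * (FF p (ph v) - FF p (ph u)) ≤
        (FF p (ph v) - FF p (ph u)) + Real.exp (-u) * (v - u + 1) := by
      have : Real.exp (-u) * (FF p (ph v) - FF p (ph u)) ≤ Real.exp (-u) * (v - u + 1) := by
        refine mul_le_mul_of_nonneg_left ?_ hE0.le
        linarith
      linarith
    linarith

/-- **The mean law.** -/
theorem mean {s t : ℝ} (hs : 0 < s) (hst : s ≤ t) :
    Tendsto (fun m : ℕ => mu m s t / wt m) atTop
      (𝓝 (Real.exp Real.eulerMascheroniConstant * Real.log 2 * (Real.log t - Real.log s))) := by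
  have h1 := mean_ff hs hst
  have h2 : Tendsto (fun m : ℕ => ((mu m s t) - ∫ τ in Set.Ioc s t, ff (P m) (2 ^ m * τ)) / wt m)
      atTop (𝓝 0) := by
    have hpow : Tendsto (fun m : ℕ => (2 : ℝ) ^ m) atTop atTop :=
      tendsto_pow_atTop_atTop_of_one_lt one_lt_two
    have h3 : Tendsto (fun m : ℕ => Real.exp (-(2 ^ m * s)) * (2 ^ m * (t - s) + 4)) atTop (𝓝 0) := by
      have h4 : Tendsto (fun x : ℝ => (t - s) / s * (x ^ 1 * Real.exp (-x)) +
          4 * (x ^ 0 * Real.exp (-x))) atTop (𝓝 ((t - s) / s * 0 + 4 * 0)) :=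
        ((Real.tendsto_pow_mul_exp_neg_atTop_nhds_zero 1).const_mul _).add
          ((Real.tendsto_pow_mul_exp_neg_atTop_nhds_zero 0).const_mul _)
      rw [mul_zero, mul_zero, add_zero] at h4
      refine (h4.comp (hpow.atTop_mul_const hs)).congr fun m => ?_
      simp only [Function.comp]
      field_simp
    refine squeeze_zero_norm' ?_ h3
    refine Eventually.of_forall fun m => ?_
    have hw := wt_pos m
    have h2m : (0 : ℝ) < 2 ^ m := by positivity
    have h5 := ff_fp (P m) (u := 2 ^ m * s) (v := 2 ^ m * t) (by positivity)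
      (mul_le_mul_of_nonneg_left hst h2m.le)
    unfold mu
    rw [scale _ _ hst, scale _ _ hst, ← mul_sub, norm_div, norm_mul,
      Real.norm_of_nonneg (inv_nonneg.2 h2m.le), Real.norm_of_nonneg hw.le, Real.norm_eq_abs,
      div_le_iff₀ hw]
    have h6 : (2 ^ m : ℝ)⁻¹ ≤ wt m := by
      unfold wt
      rw [inv_eq_one_div]
      refine div_le_div_of_nonneg_right ?_ h2m.le
      have : (0 : ℝ) ≤ m := Nat.cast_nonneg m
      linarith
    have h7 : 2 ^ m * t - 2 ^ m * s = 2 ^ m * (t - s) := by ring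
    rw [h7] at h5
    calc _ ≤ wt m * (Real.exp (-(2 ^ m * s)) * (2 ^ m * (t - s) + 4)) :=
          mul_le_mul h6 h5 (abs_nonneg _) hw.le
      _ = _ := by ring
  have h3 := h1.add h2
  rw [add_zero] at h3
  refine h3.congr fun m => ?_
  ring

end Pool.Agent.Q138.FM
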