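import Pool.Agent.Q138.FM.Law

/-!
# Upper bounds for one and for two levels
-/

set_option autoImplicit false

namespace Pool.Agent.Q138.FM

open Finset Filter Topology MeasureTheory Pool.Agent.H305R2

lemma mu_nonneg (m : ℕ) (s t : ℝ) : 0 ≤ mu m s t :=
  setIntegral_nonneg measurableSet_Ioc fun _ _ => fp_nonneg _ _

lemma measurable_fs (m : ℕ) : Measurable (fun τ : ℝ => fp (P m) (2 ^ m * τ)) :=
  (measurable_fp (P m)).comp (measurable_const.mul measurable_id)

lemma integrableOn_fs (m : ℕ) (a b : ℝ) :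
    IntegrableOn (fun τ : ℝ => fp (P m) (2 ^ m * τ)) (Set.Ioc a b) := by
  refine Measure.integrableOn_of_bounded (M := 1) (by simp) (measurable_fs m).aestronglyMeasurable ?_
  refine Eventually.of_forall fun t => ?_
  rw [Real.norm_of_nonneg (fp_nonneg _ _)]
  exact fp_le_one _ _

lemma mu_le_len (m : ℕ) {s t : ℝ} (hst : s ≤ t) : mu m s t ≤ t - s := by
  unfold mu
  calc ∫ τ in Set.Ioc s t, fp (P m) (2 ^ m * τ) ≤ ∫ τ in Set.Ioc s t, (1 : ℝ) :=
        setIntegral_mono_on (integrableOn_fs m s t) (integrableOn_const (by simp)) measurableSet_Ioc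
          fun τ _ => fp_le_one _ _
    _ = t - s := by simp [hst]

/-- one level -/
theorem one_level {s t : ℝ} (hs : 0 < s) (hst : s ≤ t) : ∃ K : ℝ, 0 < K ∧ ∀ m, mu m s t ≤ K * wt m := by
  have h := mean hs hst
  obtain ⟨K, hK⟩ := h.bddAbove_range
  refine ⟨max K 1, by positivity, fun m => ?_⟩
  have h1 : mu m s t / wt m ≤ K := hK ⟨m, rfl⟩
  rw [div_le_iff₀ (wt_pos m)] at h1
  exact h1.trans (mul_le_mul_of_nonneg_right (le_max_left _ _) (wt_pos m).le)

/-- windows of all lengths that are not too short -/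
lemma window_any {c : ℝ} (hc : 0 < c) :
    ∃ K : ℝ, 0 < K ∧ ∀ᶠ m : ℕ in atTop, ∀ y : ℝ, c * P m ≤ y → ∀ h : ℝ, Real.exp (-(y / 2)) ≤ h →
      ∫ z in Set.Ioc y (y + h), fp (P m) z ≤ K * h * wt m := by
  obtain ⟨K1, hK1, h1⟩ := window_tiny hc
  obtain ⟨K2, hK2, h2⟩ := bounds (c := c / 2) (by positivity)
  have hcast : Tendsto (fun m : ℕ => (P m : ℝ)) atTop atTop :=
    (tendsto_natCast_atTop_atTop (R := ℝ)).comp P_tendsto
  refine ⟨2 * (K1 + 2 * K2) * (Real.log 2 / 2), by
    have : 0 < Real.log 2 := Real.log_pos one_lt_two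
    positivity, ?_⟩
  filter_upwards [P_tendsto.eventually h1, P_tendsto.eventually h2,
    hcast.eventually_ge_atTop (2 / c), hcast.eventually_ge_atTop 1] with m hm1 hm2 hm3 hm4 y hy h hh
  rw [div_le_iff₀ hc] at hm3
  have hy0 : 0 ≤ y := by nlinarith
  have hh0 : 0 < h := lt_of_lt_of_le (Real.exp_pos _) hh
  have hw := wt_pos m
  obtain ⟨_, hc2⟩ := conv (P m) y (y + h)
  have hEy : Real.exp (-y) ≤ 1 := Real.exp_le_one_iff.2 (by linarith)
  have hph1 := le_ph y
  have hph2 : ph (y + h) ≤ ph y + h := by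
    have e1 : ph y + h = Real.log ((Real.exp y + 1) * Real.exp h) := by
      unfold ph
      rw [Real.log_mul (by positivity) (Real.exp_pos _).ne', Real.log_exp]
    rw [e1]
    unfold ph
    refine Real.log_le_log (by positivity) ?_
    rw [Real.exp_add, add_mul]
    have := Real.one_le_exp hh0.le
    linarith
  have hI0 : 0 ≤ ∫ z in Set.Ioc (ph y) (ph (y + h)), ff (P m) z :=
    setIntegral_nonneg measurableSet_Ioc fun _ _ => ff_nonneg _ _
  have hI1 : ∫ z in Set.Ioc (ph y) (ph (y + h)), ff (P m) z ≤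
      ∫ z in Set.Ioc (ph y) (ph y + h), ff (P m) z := by
    refine setIntegral_mono_set (integrableOn_ff _ _ _) ?_ ?_
    · exact Eventually.of_forall fun t => ff_nonneg _ t
    · exact (Set.Ioc_subset_Ioc_right hph2).eventuallyLE
  have hI2 : ∫ z in Set.Ioc (ph y) (ph y + h), ff (P m) z ≤
      (K1 + 2 * K2) * h * (Real.log (P m) / P m) := by
    have hlP : 0 ≤ Real.log (P m) / P m := by rw [logP_div]; positivity
    rcases le_total h 1 with h1' | h1'
    · have h3 := hm1 (ph y) (by linarith) h ((Real.exp_le_exp.2 (by linarith)).trans hh) h1'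
      have : 0 ≤ 2 * K2 * h * (Real.log (P m) / P m) := by positivity
      linarith
    · have h3 := hm2.2.1 (ph y) (ph y + h) (by nlinarith) (by linarith)
      have h4 : ph y + h - ph y + 1 / (P m : ℝ) ≤ 2 * h := by
        have : 1 / (P m : ℝ) ≤ 1 := by rw [div_le_one (by linarith)]; exact hm4
        linarith
      have h5 : K2 * (ph y + h - ph y + 1 / (P m : ℝ)) * (Real.log (P m) / P m) ≤
          K2 * (2 * h) * (Real.log (P m) / P m) :=
        mul_le_mul_of_nonneg_right (mul_le_mul_of_nonneg_left h4 hK2.le) hlP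
      have : 0 ≤ K1 * h * (Real.log (P m) / P m) := by positivity
      linarith
  rw [logP_div] at hI2
  calc ∫ z in Set.Ioc y (y + h), fp (P m) z ≤
        (1 + Real.exp (-y)) * ∫ z in Set.Ioc (ph y) (ph (y + h)), ff (P m) z := hc2
    _ ≤ 2 * ((K1 + 2 * K2) * h * (Real.log 2 / 2 * wt m)) :=
        mul_le_mul (by linarith) (hI1.trans hI2) hI0 (by norm_num)
    _ = _ := by ring

/-- the `τ` for which the integer at level `m` is `n` -/
def J (m n : ℕ) : Set ℝ := Set.Ico (Real.log ((n : ℝ) - 1) / 2 ^ m) (Real.log n / 2 ^ m)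

lemma mem_J {m n : ℕ} (hn : 2 ≤ n) {τ : ℝ} :
    τ ∈ J m n ↔ ⌊Real.exp (2 ^ m * τ) + 1⌋₊ = n := by
  have h2m : (0 : ℝ) < 2 ^ m := by positivity
  have hn' : (2 : ℝ) ≤ n := by exact_mod_cast hn
  have h0 := Real.exp_pos (2 ^ m * τ)
  unfold J
  rw [Set.mem_Ico, div_le_iff₀ h2m, lt_div_iff₀ h2m, mul_comm τ,
    Real.log_le_iff_le_exp (by linarith), Real.lt_log_iff_exp_lt (by linarith)]
  constructor
  · rintro ⟨h1, h2⟩
    rw [Nat.floor_eq_iff (by positivity)]
    constructor <;> linarith
  · intro h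
    rw [Nat.floor_eq_iff (by positivity)] at h
    constructor <;> linarith [h.1, h.2]

/-- integral over one of the sets `J` -/
lemma int_J {s : ℝ} (hs : 0 < s) : ∃ K : ℝ, 0 < K ∧ ∀ᶠ m' : ℕ in atTop, ∀ m n : ℕ, m < m' → 2 ≤ n →
    s ≤ Real.log ((n : ℝ) - 1) / 2 ^ m →
    ∫ τ in J m n, fp (P m') (2 ^ m' * τ) ≤ K * wt m' * ∫ _τ in J m n, (1 : ℝ) := by
  obtain ⟨K, hK, h1⟩ := window_any (c := s / 2) (by positivity)
  refine ⟨K, hK, ?_⟩
  filter_upwards [h1] with m' hm' m n hmm hn hsn
  have h2m : (0 : ℝ) < 2 ^ m := by positivity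
  have h2m' : (0 : ℝ) < 2 ^ m' := by positivity
  have hn' : (2 : ℝ) ≤ n := by exact_mod_cast hn
  set a := Real.log ((n : ℝ) - 1) / 2 ^ m with ha
  set b := Real.log n / 2 ^ m with hb
  have hlog : Real.log ((n : ℝ) - 1) ≤ Real.log n := Real.log_le_log (by linarith) (by linarith)
  have hab : a ≤ b := div_le_div_of_nonneg_right hlog h2m.le
  have e1 : ∫ τ in J m n, fp (P m') (2 ^ m' * τ) = ∫ τ in Set.Ioc a b, fp (P m') (2 ^ m' * τ) := by
    unfold J
    rw [integral_Ico_eq_integral_Ioo, ← integral_Ioc_eq_integral_Ioo]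
  have e2 : ∫ _τ in J m n, (1 : ℝ) = b - a := by
    unfold J
    rw [integral_Ico_eq_integral_Ioo, ← integral_Ioc_eq_integral_Ioo]
    simp [← ha, ← hb, hab]
  rw [e1, e2, scale _ _ hab]
  have e3 : (2 : ℝ) ^ m' * b = 2 ^ m' * a + 2 ^ m' * (b - a) := by ring
  rw [e3]
  have h2 : s / 2 * (P m' : ℝ) ≤ 2 ^ m' * a := by
    rw [P_cast]
    have := mul_le_mul_of_nonneg_left hsn h2m'.le
    linarith
  -- the length of the window
  have h3 : Real.exp (-(2 ^ m' * a / 2)) ≤ 2 ^ m' * (b - a) := by
    obtain ⟨k, rfl⟩ : ∃ k, m' = m + 1 + k := ⟨m' - (m + 1), by omega⟩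
    have hk : (1 : ℝ) ≤ 2 ^ k := one_le_pow₀ (by norm_num)
    have e4 : (2 : ℝ) ^ (m + 1 + k) * a = 2 * (2 ^ k * Real.log ((n : ℝ) - 1)) := by
      rw [ha, pow_add, pow_succ]; field_simp
    have e5 : (2 : ℝ) ^ (m + 1 + k) * (b - a) = 2 * (2 ^ k * (Real.log n - Real.log ((n : ℝ) - 1))) := by
      rw [ha, hb, pow_add, pow_succ]; field_simp
    rw [e4, e5]
    have hl0 : 0 ≤ Real.log ((n : ℝ) - 1) := Real.log_nonneg (by linarith)
    have h4 : Real.exp (-(2 * (2 ^ k * Real.log ((n : ℝ) - 1)) / 2)) ≤ 1 / ((n : ℝ) - 1) := by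
      calc Real.exp (-(2 * (2 ^ k * Real.log ((n : ℝ) - 1)) / 2)) ≤
            Real.exp (-(Real.log ((n : ℝ) - 1))) := by
              apply Real.exp_le_exp.2
              nlinarith
        _ = 1 / ((n : ℝ) - 1) := by
            rw [Real.exp_neg, Real.exp_log (by linarith), one_div]
    have h5 : 1 / (n : ℝ) ≤ Real.log n - Real.log ((n : ℝ) - 1) := by
      rw [← Real.log_div (by linarith) (by linarith)]
      have h6 := Real.one_sub_inv_le_log_of_pos (show (0 : ℝ) < (n : ℝ) / ((n : ℝ) - 1) by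
        apply div_pos <;> linarith)
      have h7 : 1 - ((n : ℝ) / ((n : ℝ) - 1))⁻¹ = 1 / n := by
        have : (n : ℝ) - 1 ≠ 0 := by linarith
        field_simp
        ring
      linarith
    have h6 : 1 / ((n : ℝ) - 1) ≤ 2 * (1 / (n : ℝ)) := by
      rw [← mul_div_assoc, mul_one, div_le_div_iff₀ (by linarith) (by linarith)]
      linarith
    have h7 : 0 ≤ Real.log n - Real.log ((n : ℝ) - 1) := by linarith
    nlinarith
  have h4 := hm' _ h2 _ h3
  calc (2 ^ m' : ℝ)⁻¹ * ∫ y in Set.Ioc (2 ^ m' * a) (2 ^ m' * a + 2 ^ m' * (b - a)), fp (P m') y ≤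
        (2 ^ m' : ℝ)⁻¹ * (K * (2 ^ m' * (b - a)) * wt m') :=
        mul_le_mul_of_nonneg_left h4 (inv_nonneg.2 h2m'.le)
    _ = K * wt m' * (b - a) := by field_simp

/-- **Two levels.** -/
theorem two_levels {s t : ℝ} (hs : 0 < s) (hst : s ≤ t) : ∃ K : ℝ, 0 < K ∧ ∀ m m' : ℕ, m < m' →
    ∫ τ in Set.Ioc s t, fp (P m) (2 ^ m * τ) * fp (P m') (2 ^ m' * τ) ≤ K * (wt m * wt m') := by
  obtain ⟨K1, hK1, h1⟩ := one_level hs hst
  obtain ⟨K2, hK2, h2⟩ := int_J (s := s / 2) (by positivity)
  obtain ⟨K3, hK3, h3⟩ := one_level (s := s / 2) (t := t + 1) (by positivity) (by linarith)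
  have hpow : Tendsto (fun m : ℕ => (2 : ℝ) ^ m) atTop atTop :=
    tendsto_pow_atTop_atTop_of_one_lt one_lt_two
  -- the general step
  have hstep : ∀ᶠ m : ℕ in atTop, ∀ m', m < m' →
      ∫ τ in Set.Ioc s t, fp (P m) (2 ^ m * τ) * fp (P m') (2 ^ m' * τ) ≤ K2 * K3 * (wt m * wt m') := by
    obtain ⟨M, hM⟩ := h2.exists_forall_of_atTop
    have hpos : 0 < min (s / 2) 1 := by positivity
    have hd : ∀ᶠ m : ℕ in atTop, 1 / min (s / 2) 1 ≤ (2 : ℝ) ^ m := hpow.eventually_ge_atTop _
    have hd2 : ∀ᶠ m : ℕ in atTop, 2 / s ≤ (2 : ℝ) ^ m := hpow.eventually_ge_atTop _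
    filter_upwards [eventually_ge_atTop M, hd, hd2] with m hmM hmd hmd2 m' hmm
    have h2m : (0 : ℝ) < 2 ^ m := by positivity
    have hm2s : 2 ≤ 2 ^ m * s := by
      rw [div_le_iff₀ hs] at hmd2
      exact hmd2
    set F := ((Finset.Icc ⌊Real.exp (2 ^ m * s) + 1⌋₊ ⌊Real.exp (2 ^ m * t) + 1⌋₊).filter
      (fun n => (roughPart (P m) n).Prime)) with hF
    have hes : 2 ≤ Real.exp (2 ^ m * s) := by
      have := Real.add_one_le_exp (2 ^ m * s)
      linarith
    have hn2 : ∀ n ∈ F, 3 ≤ n := by
      intro n hn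
      rw [hF, Finset.mem_filter, Finset.mem_Icc] at hn
      have h4 : 3 ≤ ⌊Real.exp (2 ^ m * s) + 1⌋₊ := by
        rw [Nat.le_floor_iff (by positivity)]
        push_cast
        linarith
      omega
    -- the length of J
    have hlen : ∀ n : ℕ, 3 ≤ n → (Real.log n - Real.log ((n : ℝ) - 1)) / 2 ^ m ≤ min (s / 2) 1 := by
      intro n hn
      have hn' : (3 : ℝ) ≤ n := by exact_mod_cast hn
      rw [div_le_iff₀ h2m]
      rw [div_le_iff₀ hpos] at hmd
      have h5 : Real.log n - Real.log ((n : ℝ) - 1) ≤ 1 := by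
        rw [← Real.log_div (by linarith) (by linarith)]
        have h6 := Real.log_le_sub_one_of_pos (show (0 : ℝ) < (n : ℝ) / ((n : ℝ) - 1) by
          apply div_pos <;> linarith)
        have h7 : (n : ℝ) / ((n : ℝ) - 1) ≤ 2 := by
          rw [div_le_iff₀ (by linarith)]; linarith
        linarith
      linarith
    have hJsub : ∀ n ∈ F, s / 2 ≤ Real.log ((n : ℝ) - 1) / 2 ^ m ∧ Real.log n / 2 ^ m ≤ t + 1 := by
      intro n hn
      have h3n := hn2 n hn
      have hn' : (3 : ℝ) ≤ n := by exact_mod_cast h3n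
      rw [hF, Finset.mem_filter, Finset.mem_Icc] at hn
      have hl := hlen n h3n
      rw [sub_div] at hl
      have hl1 := hl.trans (min_le_left _ _)
      have hl2 := hl.trans (min_le_right _ _)
      constructor
      · have h5 : s ≤ Real.log n / 2 ^ m := by
          rw [le_div_iff₀ h2m, Real.le_log_iff_exp_le (by linarith), mul_comm]
          have h6 : Real.exp (2 ^ m * s) + 1 < (⌊Real.exp (2 ^ m * s) + 1⌋₊ : ℝ) + 1 :=
            Nat.lt_floor_add_one _
          have h7 : (⌊Real.exp (2 ^ m * s) + 1⌋₊ : ℝ) ≤ n := by exact_mod_cast hn.1.1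
          linarith
        linarith
      · have h5 : Real.log ((n : ℝ) - 1) / 2 ^ m ≤ t := by
          rw [div_le_iff₀ h2m, Real.log_le_iff_le_exp (by linarith), mul_comm]
          have h6 : (⌊Real.exp (2 ^ m * t) + 1⌋₊ : ℝ) ≤ Real.exp (2 ^ m * t) + 1 :=
            Nat.floor_le (by positivity)
          have h7 : (n : ℝ) ≤ (⌊Real.exp (2 ^ m * t) + 1⌋₊ : ℝ) := by exact_mod_cast hn.1.2
          linarith
        linarith
    have hJint : ∀ n, IntegrableOn (fun τ => fp (P m') (2 ^ m' * τ)) (J m n) := by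
      intro n
      refine Measure.integrableOn_of_bounded (M := 1) (by simp [J])
        (measurable_fs m').aestronglyMeasurable ?_
      refine Eventually.of_forall fun t => ?_
      rw [Real.norm_of_nonneg (fp_nonneg _ _)]
      exact fp_le_one _ _
    -- first inequality
    have hA : ∫ τ in Set.Ioc s t, fp (P m) (2 ^ m * τ) * fp (P m') (2 ^ m' * τ) ≤
        ∑ n ∈ F, ∫ τ in J m n, fp (P m') (2 ^ m' * τ) := by
      have e1 : ∑ n ∈ F, ∫ τ in J m n, fp (P m') (2 ^ m' * τ) =
          ∫ τ, ∑ n ∈ F, (J m n).indicator (fun τ => fp (P m') (2 ^ m' * τ)) τ := by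
        rw [integral_finsetSum]
        · refine Finset.sum_congr rfl fun n _ => ?_
          rw [integral_indicator (by unfold J; exact measurableSet_Ico)]
        · intro n _
          exact (integrable_indicator_iff (by unfold J; exact measurableSet_Ico)).2 (hJint n)
      rw [e1, ← integral_indicator measurableSet_Ioc]
      refine integral_mono_of_nonneg ?_ ?_ ?_
      · refine Eventually.of_forall fun τ => ?_
        exact Set.indicator_nonneg (fun _ _ => mul_nonneg (fp_nonneg _ _) (fp_nonneg _ _)) _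
      · refine integrable_finsetSum _ fun n _ => ?_
        exact (integrable_indicator_iff (by unfold J; exact measurableSet_Ico)).2 (hJint n)
      · refine Eventually.of_forall fun τ => ?_
        simp only
        by_cases hτ : τ ∈ Set.Ioc s t
        · rw [Set.indicator_of_mem hτ]
          have hnn : ∀ n ∈ F, 0 ≤ (J m n).indicator (fun τ => fp (P m') (2 ^ m' * τ)) τ :=
            fun n _ => Set.indicator_nonneg (fun _ _ => fp_nonneg _ _) _
          by_cases hp : (roughPart (P m) ⌊Real.exp (2 ^ m * τ) + 1⌋₊).Prime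
          · have hmem : ⌊Real.exp (2 ^ m * τ) + 1⌋₊ ∈ F := by
              rw [hF, Finset.mem_filter, Finset.mem_Icc]
              refine ⟨⟨Nat.floor_mono ?_, Nat.floor_mono ?_⟩, hp⟩
              · have := Real.exp_le_exp.2 (mul_le_mul_of_nonneg_left hτ.1.le h2m.le)
                linarith
              · have := Real.exp_le_exp.2 (mul_le_mul_of_nonneg_left hτ.2 h2m.le)
                linarith
            have hJ : τ ∈ J m ⌊Real.exp (2 ^ m * τ) + 1⌋₊ :=
              (mem_J (by have := hn2 _ hmem; omega)).2 rfl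
            have h5 := Finset.single_le_sum hnn hmem
            rw [Set.indicator_of_mem hJ] at h5
            refine le_trans ?_ h5
            have h6 := fp_le_one (P m) (2 ^ m * τ)
            have h7 := fp_nonneg (P m') (2 ^ m' * τ)
            have h8 := fp_nonneg (P m) (2 ^ m * τ)
            nlinarith
          · have h5 : fp (P m) (2 ^ m * τ) = 0 := by unfold fp; rw [if_neg hp]
            rw [h5, zero_mul]
            exact Finset.sum_nonneg hnn
        · rw [Set.indicator_of_notMem hτ]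
          exact Finset.sum_nonneg fun n _ => Set.indicator_nonneg (fun _ _ => fp_nonneg _ _) _
    -- second inequality
    have hB : ∑ n ∈ F, ∫ _τ in J m n, (1 : ℝ) ≤ mu m (s / 2) (t + 1) := by
      have e1 : ∑ n ∈ F, ∫ _τ in J m n, (1 : ℝ) =
          ∫ τ, ∑ n ∈ F, (J m n).indicator (fun _ => (1 : ℝ)) τ := by
        rw [integral_finsetSum]
        · refine Finset.sum_congr rfl fun n _ => ?_
          rw [integral_indicator (by unfold J; exact measurableSet_Ico)]
        · intro n _
          exact (integrable_indicator_iff (by unfold J; exact measurableSet_Ico)).2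
            (integrableOn_const (by simp [J]))
      unfold mu
      rw [e1, ← integral_indicator measurableSet_Ioc]
      refine integral_mono_of_nonneg ?_ ?_ ?_
      · refine Eventually.of_forall fun τ => ?_
        exact Finset.sum_nonneg fun n _ => Set.indicator_nonneg (fun _ _ => zero_le_one) _
      · exact (integrable_indicator_iff measurableSet_Ioc).2 (integrableOn_fs m _ _)
      · refine Eventually.of_forall fun τ => ?_
        simp only
        by_cases hτ : ∃ n ∈ F, τ ∈ J m n
        · obtain ⟨n, hn, hJ⟩ := hτ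
          have h3n := hn2 n hn
          have hfl := (mem_J (by omega)).1 hJ
          have hsum : ∑ n' ∈ F, (J m n').indicator (fun _ => (1 : ℝ)) τ = 1 := by
            rw [Finset.sum_eq_single n]
            · rw [Set.indicator_of_mem hJ]
            · intro n' hn' hne
              rw [Set.indicator_of_notMem]
              intro h
              exact hne (((mem_J (by have := hn2 n' hn'; omega)).1 h).symm.trans hfl)
            · intro h; exact absurd hn h
          rw [hsum]
          obtain ⟨h5, h6⟩ := hJsub n hn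
          have hJ' := hJ
          unfold J at hJ'
          have hlow : s / 2 < τ := by
            have hn' : (3 : ℝ) ≤ n := by exact_mod_cast h3n
            rw [hF, Finset.mem_filter, Finset.mem_Icc] at hn
            have h7 := hJ'.1
            have h8 : s ≤ Real.log n / 2 ^ m := by
              rw [le_div_iff₀ h2m, Real.le_log_iff_exp_le (by linarith), mul_comm]
              have h6 : Real.exp (2 ^ m * s) + 1 < (⌊Real.exp (2 ^ m * s) + 1⌋₊ : ℝ) + 1 :=
                Nat.lt_floor_add_one _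
              have h7 : (⌊Real.exp (2 ^ m * s) + 1⌋₊ : ℝ) ≤ n := by exact_mod_cast hn.1.1
              linarith
            have h9 : (Real.log n - Real.log ((n : ℝ) - 1)) / 2 ^ m < s / 2 := by
              rw [div_lt_iff₀ h2m]
              have h10 : Real.log n - Real.log ((n : ℝ) - 1) < 1 := by
                rw [← Real.log_div (by linarith) (by linarith)]
                have h6 := Real.log_le_sub_one_of_pos (show (0 : ℝ) < (n : ℝ) / ((n : ℝ) - 1) by
                  apply div_pos <;> linarith)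
                have h7 : (n : ℝ) / ((n : ℝ) - 1) < 2 := by
                  rw [div_lt_iff₀ (by linarith)]; linarith
                linarith
              nlinarith
            rw [sub_div] at h9
            linarith
          rw [Set.indicator_of_mem (show τ ∈ Set.Ioc (s / 2) (t + 1) from ⟨hlow, hJ'.2.le.trans h6⟩)]
          unfold fp
          rw [hfl]
          rw [hF, Finset.mem_filter] at hn
          rw [if_pos hn.2]
        · push Not at hτ
          rw [Finset.sum_eq_zero fun n hn => Set.indicator_of_notMem (hτ n hn) _]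
          exact Set.indicator_nonneg (fun _ _ => fp_nonneg _ _) _
    have hw' := wt_pos m'
    calc _ ≤ ∑ n ∈ F, ∫ τ in J m n, fp (P m') (2 ^ m' * τ) := hA
      _ ≤ ∑ n ∈ F, K2 * wt m' * ∫ _τ in J m n, (1 : ℝ) := by
          refine Finset.sum_le_sum fun n hn => ?_
          exact hM m' (by omega) m n hmm (by have := hn2 n hn; omega) (hJsub n hn).1
      _ = K2 * wt m' * ∑ n ∈ F, ∫ _τ in J m n, (1 : ℝ) := by rw [Finset.mul_sum]
      _ ≤ K2 * wt m' * (K3 * wt m) :=
          mul_le_mul_of_nonneg_left (hB.trans (h3 m)) (by positivity)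
      _ = _ := by ring
  obtain ⟨M, hM⟩ := hstep.exists_forall_of_atTop
  -- small levels
  refine ⟨K2 * K3 + K1 * 2 ^ M, by positivity, fun m m' hmm => ?_⟩
  have hw := wt_pos m
  have hw' := wt_pos m'
  rcases le_or_gt M m with h | h
  · refine (hM m h m' hmm).trans ?_
    exact mul_le_mul_of_nonneg_right (by linarith [show 0 < K1 * 2 ^ M by positivity]) (by positivity)
  · have h4 : ∫ τ in Set.Ioc s t, fp (P m) (2 ^ m * τ) * fp (P m') (2 ^ m' * τ) ≤ mu m' s t := by
      unfold mu
      refine integral_mono_of_nonneg ?_ (integrableOn_fs m' s t) ?_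
      · exact Eventually.of_forall fun τ => mul_nonneg (fp_nonneg _ _) (fp_nonneg _ _)
      · refine Eventually.of_forall fun τ => ?_
        have h6 := fp_le_one (P m) (2 ^ m * τ)
        have h7 := fp_nonneg (P m') (2 ^ m' * τ)
        simp only
        nlinarith
    have h5 : 1 ≤ 2 ^ M * wt m := by
      unfold wt
      rw [← mul_div_assoc, le_div_iff₀ (by positivity), one_mul]
      have h6 : (2 : ℝ) ^ m ≤ 2 ^ M := pow_le_pow_right₀ (by norm_num) h.le
      have h7 : (0 : ℝ) ≤ m := Nat.cast_nonneg m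
      have h8 : (0 : ℝ) < 2 ^ M := by positivity
      nlinarith
    have h6 := h1 m'
    have h7 : 0 ≤ K2 * K3 * (wt m * wt m') := by positivity
    have h8 : K1 * wt m' * 1 ≤ K1 * wt m' * (2 ^ M * wt m) :=
      mul_le_mul_of_nonneg_left h5 (by positivity)
    calc _ ≤ mu m' s t := h4
      _ ≤ K1 * wt m' * 1 := by linarith
      _ ≤ K1 * wt m' * (2 ^ M * wt m) := h8
      _ ≤ (K2 * K3 + K1 * 2 ^ M) * (wt m * wt m') := by linarith

end Pool.Agent.Q138.FM
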