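import Pool.Agent.Q138.FM.Tiny

/-!
# The integer `⌊exp y + 1⌋`
-/

set_option autoImplicit false

namespace Pool.Agent.Q138.FM

open Finset Filter Topology MeasureTheory Pool.Agent.H305R2

/-- indicator of the event that the integer part of `exp y + 1` has prime `p`-rough part -/
noncomputable def fp (p : ℕ) (y : ℝ) : ℝ := if (roughPart p ⌊Real.exp y + 1⌋₊).Prime then 1 else 0

/-- `log (exp y + 1)` -/
noncomputable def ph (y : ℝ) : ℝ := Real.log (Real.exp y + 1)

lemma exp_ph (y : ℝ) : Real.exp (ph y) = Real.exp y + 1 :=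
  Real.exp_log (by positivity)

lemma fp_nonneg (p : ℕ) (y : ℝ) : 0 ≤ fp p y := by unfold fp; split_ifs <;> norm_num

lemma fp_le_one (p : ℕ) (y : ℝ) : fp p y ≤ 1 := by unfold fp; split_ifs <;> norm_num

lemma measurable_fp (p : ℕ) : Measurable (fp p) := by
  have h1 : Measurable (fun t : ℝ => ⌊Real.exp t + 1⌋₊) :=
    Nat.measurable_floor.comp (Real.measurable_exp.add_const 1)
  exact (measurable_from_nat (f := fun n : ℕ => if (roughPart p n).Prime then (1 : ℝ) else 0)).comp h1

lemma integrableOn_fp (p : ℕ) (a b : ℝ) : IntegrableOn (fp p) (Set.Ioc a b) := by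
  refine Measure.integrableOn_of_bounded (M := 1) (by simp) (measurable_fp p).aestronglyMeasurable ?_
  refine Eventually.of_forall fun t => ?_
  rw [Real.norm_of_nonneg (fp_nonneg p t)]
  exact fp_le_one p t

lemma fp_eq (p : ℕ) {y : ℝ} (hy : ∀ n : ℕ, Real.exp y ≠ n) : fp p y = ff p (ph y) := by
  unfold fp ff NN
  rw [exp_ph]
  have h : ⌈Real.exp y + 1⌉₊ - 1 = ⌊Real.exp y + 1⌋₊ := by
    have h0 := Real.exp_pos y
    rw [Nat.ceil_add_one h0.le, Nat.floor_add_one h0.le, Nat.add_sub_cancel]
    refine le_antisymm ?_ ?_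
    · rw [Nat.ceil_le]
      push_cast
      exact (Nat.lt_floor_add_one _).le
    · have h1 : (⌊Real.exp y⌋₊ : ℝ) < Real.exp y :=
        lt_of_le_of_ne (Nat.floor_le h0.le) (fun h => hy _ h.symm)
      have h2 : ⌊Real.exp y⌋₊ < ⌈Real.exp y⌉₊ := Nat.lt_ceil.2 h1
      omega
  rw [h]

lemma ae_not_nat : ∀ᵐ y : ℝ, ∀ n : ℕ, Real.exp y ≠ n := by
  rw [ae_all_iff]
  intro n
  have h : {y : ℝ | ¬ Real.exp y ≠ n} ⊆ {Real.log n} := by
    intro y hy
    simp only [ne_eq, not_not, Set.mem_ofPred_eq] at hy
    rw [Set.mem_singleton_iff, ← hy, Real.log_exp]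
  exact measure_mono_null h (by simp)

lemma hasDerivAt_ph (y : ℝ) : HasDerivAt ph (Real.exp y / (Real.exp y + 1)) y := by
  unfold ph
  exact ((Real.hasDerivAt_exp y).add_const 1).log (by positivity)

lemma ph_mono : StrictMono ph := by
  intro x y h
  unfold ph
  exact Real.log_lt_log (by positivity) (by have := Real.exp_lt_exp.2 h; linarith)

lemma le_ph (y : ℝ) : y ≤ ph y := by
  unfold ph
  rw [Real.le_log_iff_exp_le (by positivity)]
  linarith

lemma ph_le (y : ℝ) : ph y ≤ y + Real.exp (-y) := by
  unfold ph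
  have h : Real.exp y + 1 = Real.exp y * (1 + Real.exp (-y)) := by
    rw [mul_add, ← Real.exp_add]; simp
  rw [h, Real.log_mul (Real.exp_pos _).ne' (by positivity), Real.log_exp]
  have := Real.log_le_sub_one_of_pos (show (0 : ℝ) < 1 + Real.exp (-y) by positivity)
  linarith

lemma image_ph (u v : ℝ) : ph '' Set.Ioc u v = Set.Ioc (ph u) (ph v) := by
  ext z
  constructor
  · rintro ⟨y, hy, rfl⟩
    exact ⟨ph_mono hy.1, ph_mono.monotone hy.2⟩
  · intro hz
    have hz1 : 0 < Real.exp z - 1 := by
      have h1 : Real.exp (ph u) < Real.exp z := Real.exp_lt_exp.2 hz.1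
      rw [exp_ph] at h1
      have := Real.exp_pos u
      linarith
    refine ⟨Real.log (Real.exp z - 1), ⟨?_, ?_⟩, ?_⟩
    · rw [Real.lt_log_iff_exp_lt hz1]
      have h1 : Real.exp (ph u) < Real.exp z := Real.exp_lt_exp.2 hz.1
      rw [exp_ph] at h1
      linarith
    · rw [Real.log_le_iff_le_exp hz1]
      have h1 : Real.exp z ≤ Real.exp (ph v) := Real.exp_le_exp.2 hz.2
      rw [exp_ph] at h1
      linarith
    · unfold ph
      rw [Real.exp_log hz1, sub_add_cancel, Real.log_exp]

lemma conv (p : ℕ) (u v : ℝ) :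
    ∫ t in Set.Ioc (ph u) (ph v), ff p t ≤ ∫ t in Set.Ioc u v, fp p t ∧
    ∫ t in Set.Ioc u v, fp p t ≤ (1 + Real.exp (-u)) * ∫ t in Set.Ioc (ph u) (ph v), ff p t := by
  have h1 := integral_image_eq_integral_abs_deriv_smul (s := Set.Ioc u v) measurableSet_Ioc
    (f := ph) (f' := fun y => Real.exp y / (Real.exp y + 1))
    (fun y _ => (hasDerivAt_ph y).hasDerivWithinAt) ph_mono.injective.injOn (ff p)
  rw [image_ph] at h1
  have h2 : ∫ t in Set.Ioc u v, fp p t = ∫ t in Set.Ioc u v, ff p (ph t) := by
    refine setIntegral_congr_ae measurableSet_Ioc ?_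
    filter_upwards [ae_not_nat] with y hy _
    exact fp_eq p hy
  have hph : Measurable ph := by
    unfold ph
    exact Real.measurable_log.comp (Real.measurable_exp.add_const 1)
  have hint : IntegrableOn (fun t => ff p (ph t)) (Set.Ioc u v) := by
    refine Measure.integrableOn_of_bounded (M := 1) (by simp)
      ((measurable_ff p).comp hph).aestronglyMeasurable ?_
    refine Eventually.of_forall fun t => ?_
    rw [Real.norm_of_nonneg (ff_nonneg p _)]
    exact ff_le_one p _
  have hint2 : IntegrableOn (fun y => |Real.exp y / (Real.exp y + 1)| • ff p (ph y)) (Set.Ioc u v) := by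
    refine Measure.integrableOn_of_bounded (M := 1) (by simp) ?_ ?_
    · refine Measurable.aestronglyMeasurable ?_
      simp only [smul_eq_mul]
      exact (continuous_abs.measurable.comp
        (Real.measurable_exp.div (Real.measurable_exp.add_const 1))).mul
          ((measurable_ff p).comp hph)
    · refine Eventually.of_forall fun t => ?_
      have h0 := Real.exp_pos t
      rw [norm_smul, Real.norm_eq_abs, abs_abs, abs_of_nonneg (by positivity),
        Real.norm_of_nonneg (ff_nonneg p _)]
      have h3 : Real.exp t / (Real.exp t + 1) ≤ 1 := by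
        rw [div_le_one (by positivity)]; linarith
      have := ff_le_one p (ph t)
      have h4 := ff_nonneg p (ph t)
      nlinarith
  rw [h1, h2]
  constructor
  · refine setIntegral_mono_on hint2 hint measurableSet_Ioc fun y _ => ?_
    have h0 := Real.exp_pos y
    rw [abs_of_nonneg (by positivity), smul_eq_mul]
    have h3 : Real.exp y / (Real.exp y + 1) ≤ 1 := by
      rw [div_le_one (by positivity)]; linarith
    have h4 := ff_nonneg p (ph y)
    nlinarith
  · rw [← integral_const_mul]
    refine setIntegral_mono_on hint (hint2.const_mul _) measurableSet_Ioc fun y hy => ?_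
    have h0 := Real.exp_pos y
    rw [abs_of_nonneg (by positivity), smul_eq_mul, ← mul_assoc]
    have h4 := ff_nonneg p (ph y)
    have h5 : 1 ≤ (1 + Real.exp (-u)) * (Real.exp y / (Real.exp y + 1)) := by
      rw [← mul_div_assoc, le_div_iff₀ (by positivity), one_mul, add_mul, one_mul]
      have h6 : Real.exp (-u) * Real.exp y = Real.exp (y - u) := by
        rw [← Real.exp_add]; congr 1; ring
      rw [h6]
      have h7 : 1 ≤ Real.exp (y - u) := Real.one_le_exp (by linarith [hy.1])
      linarith
    nlinarith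

end Pool.Agent.Q138.FM
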