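import Pool.Agent.Q138.FM.Pair

/-!
# The law of the tail
-/

set_option autoImplicit false

namespace Pool.Agent.Q138.FM

open Finset Filter Topology MeasureTheory Pool.Agent.H305R2

/-- the `τ` for which the condition holds at level `m` -/
def A (m : ℕ) : Set ℝ := {τ | (roughPart (P m) ⌊Real.exp (2 ^ m * τ) + 1⌋₊).Prime}

lemma measurableSet_A (m : ℕ) : MeasurableSet (A m) := by
  have h1 : Measurable (fun τ : ℝ => ⌊Real.exp (2 ^ m * τ) + 1⌋₊) :=
    Nat.measurable_floor.comp ((Real.measurable_exp.comp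
      (measurable_const.mul measurable_id)).add_const 1)
  exact h1 (MeasurableSet.of_discrete (s := {n : ℕ | (roughPart (P m) n).Prime}))

lemma fp_eq_ind (m : ℕ) (τ : ℝ) : fp (P m) (2 ^ m * τ) = (A m).indicator (fun _ => (1 : ℝ)) τ := by
  unfold fp A
  rw [Set.indicator_apply]
  rfl

lemma mu_eq (m : ℕ) (s t : ℝ) : mu m s t = volume.real (A m ∩ Set.Ioc s t) := by
  unfold mu
  simp_rw [fp_eq_ind]
  rw [setIntegral_indicator (measurableSet_A m), setIntegral_const, smul_eq_mul, mul_one,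
    Set.inter_comm]

lemma pair_eq (m m' : ℕ) (s t : ℝ) :
    ∫ τ in Set.Ioc s t, fp (P m) (2 ^ m * τ) * fp (P m') (2 ^ m' * τ) =
      volume.real ((A m ∩ Set.Ioc s t) ∩ (A m' ∩ Set.Ioc s t)) := by
  simp_rw [fp_eq_ind]
  have h : ∀ τ : ℝ, (A m).indicator (fun _ => (1 : ℝ)) τ * (A m').indicator (fun _ => (1 : ℝ)) τ =
      (A m ∩ A m').indicator (fun _ => (1 : ℝ)) τ := by
    intro τ
    classical
    simp only [Set.indicator_apply, Set.mem_inter_iff]
    split_ifs <;> simp_all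
  simp_rw [h]
  rw [setIntegral_indicator ((measurableSet_A m).inter (measurableSet_A m')), setIntegral_const,
    smul_eq_mul, mul_one]
  congr 1
  ext τ
  simp only [Set.mem_inter_iff]
  tauto

lemma wt_add (M j : ℕ) : wt (M + j) ≤ (j + 1) * (1 / 2) ^ j * wt M := by
  unfold wt
  rw [pow_add, one_div, inv_pow, div_le_iff₀ (by positivity)]
  push_cast
  have h1 : ((j : ℝ) + 1) * ((2 : ℝ) ^ j)⁻¹ * (((M : ℝ) + 1) / 2 ^ M) * (2 ^ M * 2 ^ j) =
      ((j : ℝ) + 1) * ((M : ℝ) + 1) := by field_simp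
  rw [h1]
  have h2 : (0 : ℝ) ≤ M * j := by positivity
  nlinarith

lemma wt_div (j : ℕ) : Tendsto (fun M : ℕ => wt (M + j) / wt M) atTop (𝓝 ((1 / 2) ^ j)) := by
  have h : ∀ M : ℕ, wt (M + j) / wt M = (1 + j * (1 / ((M : ℝ) + 1))) * (1 / 2) ^ j := by
    intro M
    unfold wt
    rw [pow_add, one_div, one_div, inv_pow]
    push_cast
    field_simp
    ring
  simp_rw [h]
  have h1 := (tendsto_one_div_add_atTop_nhds_zero_nat (𝕜 := ℝ)).const_mul (j : ℝ)
  have h2 := (h1.const_add 1).mul_const ((1 / 2 : ℝ) ^ j)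
  simpa using h2

lemma summable_b : Summable (fun j : ℕ => ((j : ℝ) + 1) * (1 / 2) ^ j) := by
  have h1 := summable_pow_mul_geometric_of_norm_lt_one (R := ℝ) 1 (r := 1 / 2) (by norm_num)
  have h2 := summable_geometric_of_lt_one (r := (1 / 2 : ℝ)) (by norm_num) (by norm_num)
  refine (h1.add h2).congr fun j => ?_
  ring

/-- the tail at `M` -/
def U (M : ℕ) : Set ℝ := ⋃ j, A (M + j)

lemma U_eq (M : ℕ) : U M = {τ | ∃ m, M ≤ m ∧ τ ∈ A m} := by
  ext τ
  unfold U
  simp only [Set.mem_iUnion, Set.mem_ofPred_eq]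
  constructor
  · rintro ⟨j, hj⟩
    exact ⟨M + j, by omega, hj⟩
  · rintro ⟨m, hm, h⟩
    exact ⟨m - M, by rwa [Nat.add_sub_cancel' hm]⟩

section
variable {s t : ℝ}

lemma summable_mu (hs : 0 < s) (hst : s ≤ t) (M : ℕ) : Summable (fun j => mu (M + j) s t) := by
  obtain ⟨K, hK, h⟩ := one_level hs hst
  refine Summable.of_nonneg_of_le (fun j => mu_nonneg _ _ _) (fun j => ?_)
    (summable_b.mul_left (K * wt M))
  have h1 := mul_le_mul_of_nonneg_left (wt_add M j) hK.le
  have h2 := h (M + j)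
  calc mu (M + j) s t ≤ K * wt (M + j) := h2
    _ ≤ K * ((j + 1) * (1 / 2) ^ j * wt M) := h1
    _ = _ := by ring

lemma tail_tsum (hs : 0 < s) (hst : s ≤ t) :
    Tendsto (fun M : ℕ => (∑' j, mu (M + j) s t) / wt M) atTop
      (𝓝 (2 * (Real.exp Real.eulerMascheroniConstant * Real.log 2 * (Real.log t - Real.log s)))) := by
  set L := Real.exp Real.eulerMascheroniConstant * Real.log 2 * (Real.log t - Real.log s) with hL
  obtain ⟨K, hK, h⟩ := one_level hs hst
  have h1 : Tendsto (fun M : ℕ => ∑' j, mu (M + j) s t / wt M) atTop (𝓝 (∑' j : ℕ, L * (1 / 2) ^ j)) := by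
    refine tendsto_tsum_of_dominated_convergence (bound := fun j : ℕ => K * (((j : ℝ) + 1) * (1 / 2) ^ j))
      (summable_b.mul_left K) ?_ ?_
    · intro j
      have h2 := ((mean hs hst).comp (tendsto_add_atTop_nat j)).mul (wt_div j)
      refine h2.congr fun M => ?_
      simp only [Function.comp]
      have := (wt_pos (M + j)).ne'
      have := (wt_pos M).ne'
      field_simp
    · refine Eventually.of_forall fun M j => ?_
      have hw := wt_pos M
      rw [Real.norm_of_nonneg (div_nonneg (mu_nonneg _ _ _) hw.le), div_le_iff₀ hw]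
      have h3 := mul_le_mul_of_nonneg_left (wt_add M j) hK.le
      linarith [h (M + j)]
  have e : ∑' j : ℕ, L * (1 / 2 : ℝ) ^ j = 2 * L := by
    rw [tsum_mul_left, tsum_geometric_of_lt_one (by norm_num) (by norm_num)]
    norm_num
    ring
  rw [e] at h1
  refine h1.congr fun M => ?_
  rw [tsum_div_const]

lemma fin_Ioc (S : Set ℝ) : volume (S ∩ Set.Ioc s t) ≠ ⊤ :=
  ne_top_of_le_ne_top (by simp) (measure_mono Set.inter_subset_right)

lemma tail_upper (hs : 0 < s) (hst : s ≤ t) (M : ℕ) :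
    volume.real (U M ∩ Set.Ioc s t) ≤ ∑' j, mu (M + j) s t := by
  have h1 : U M ∩ Set.Ioc s t = ⋃ j, (A (M + j) ∩ Set.Ioc s t) := by
    unfold U; rw [Set.iUnion_inter]
  have h2 : volume (U M ∩ Set.Ioc s t) ≤ ENNReal.ofReal (∑' j, mu (M + j) s t) := by
    rw [h1, ENNReal.ofReal_tsum_of_nonneg (fun j => mu_nonneg _ _ _) (summable_mu hs hst M)]
    refine (measure_iUnion_le _).trans (ENNReal.tsum_le_tsum fun j => ?_)
    rw [mu_eq, ofReal_measureReal (fin_Ioc _)]
  exact ENNReal.toReal_le_of_le_ofReal (tsum_nonneg fun j => mu_nonneg _ _ _) h2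

/-- Bonferroni's inequality -/
lemma bonf (B : ℕ → Set ℝ) (hB : ∀ j, MeasurableSet (B j)) (hf : ∀ j, volume (B j) ≠ ⊤) :
    ∀ J : ℕ, ∑ j ∈ range J, volume.real (B j) - ∑ j ∈ range J, ∑ i ∈ range j, volume.real (B i ∩ B j) ≤
      volume.real (⋃ j ∈ range J, B j) := by
  intro J
  induction J with
  | zero => simp
  | succ J ih =>
    rw [sum_range_succ, sum_range_succ, Finset.range_add_one, Finset.set_biUnion_insert]
    have hfU : volume (⋃ j ∈ range J, B j) ≠ ⊤ := by
      refine ne_top_of_le_ne_top ?_ (measure_biUnion_finset_le (range J) B)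
      exact (ENNReal.sum_lt_top.2 fun j _ => (hf j).lt_top).ne
    have h1 := measureReal_union_add_inter (μ := volume) (s := B J) (t := ⋃ j ∈ range J, B j)
      (Finset.measurableSet_biUnion _ fun j _ => hB j) (hf J) hfU
    have h2 : volume.real (B J ∩ ⋃ j ∈ range J, B j) ≤ ∑ i ∈ range J, volume.real (B i ∩ B J) := by
      have h3 : B J ∩ ⋃ j ∈ range J, B j = ⋃ j ∈ range J, (B j ∩ B J) := by
        ext x
        simp only [Set.mem_inter_iff, Set.mem_iUnion]
        constructor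
        · rintro ⟨h1, i, hi, h2⟩
          exact ⟨i, hi, h2, h1⟩
        · rintro ⟨i, hi, h2, h1⟩
          exact ⟨h1, i, hi, h2⟩
      rw [h3]
      exact measureReal_biUnion_finset_le _ _
    linarith

lemma tail_lower (hs : 0 < s) (hst : s ≤ t) : ∃ K : ℝ, 0 < K ∧ ∀ M J : ℕ,
    ∑ j ∈ range J, mu (M + j) s t - K * J ^ 2 * wt M ^ 2 ≤ volume.real (U M ∩ Set.Ioc s t) := by
  obtain ⟨K, hK, h⟩ := two_levels hs hst
  refine ⟨K, hK, fun M J => ?_⟩
  have h1 := bonf (fun j => A (M + j) ∩ Set.Ioc s t)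
    (fun j => (measurableSet_A _).inter measurableSet_Ioc) (fun j => fin_Ioc _) J
  have hw := wt_pos M
  have hb : ∀ j : ℕ, wt (M + j) ≤ wt M := by
    intro j
    refine (wt_add M j).trans ?_
    have : ((j : ℝ) + 1) * (1 / 2) ^ j ≤ 1 := by
      rw [one_div, inv_pow, ← div_eq_mul_inv, div_le_one (by positivity)]
      exact_mod_cast Nat.lt_two_pow_self (n := j)
    nlinarith
  have h2 : ∑ j ∈ range J, ∑ i ∈ range j, volume.real ((A (M + i) ∩ Set.Ioc s t) ∩
      (A (M + j) ∩ Set.Ioc s t)) ≤ K * J ^ 2 * wt M ^ 2 := by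
    calc _ ≤ ∑ j ∈ range J, ∑ i ∈ range j, K * wt M ^ 2 := by
          refine sum_le_sum fun j _ => sum_le_sum fun i hi => ?_
          rw [← pair_eq]
          refine (h (M + i) (M + j) (by have := Finset.mem_range.1 hi; omega)).trans ?_
          refine mul_le_mul_of_nonneg_left ?_ hK.le
          rw [sq]
          exact mul_le_mul (hb i) (hb j) (wt_pos _).le hw.le
      _ ≤ ∑ j ∈ range J, J * (K * wt M ^ 2) := by
          refine sum_le_sum fun j hj => ?_
          rw [sum_const, card_range, nsmul_eq_mul]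
          refine mul_le_mul_of_nonneg_right ?_ (by positivity)
          exact_mod_cast (Finset.mem_range.1 hj).le
      _ = _ := by rw [sum_const, card_range, nsmul_eq_mul]; ring
  have h3 : volume.real (⋃ j ∈ range J, (A (M + j) ∩ Set.Ioc s t)) ≤
      volume.real (U M ∩ Set.Ioc s t) := by
    refine measureReal_mono ?_ (fin_Ioc _)
    intro x hx
    simp only [Set.mem_iUnion] at hx
    obtain ⟨j, _, h1, h2⟩ := hx
    exact ⟨Set.mem_iUnion.2 ⟨j, h1⟩, h2⟩
  have h4 : ∑ j ∈ range J, volume.real (A (M + j) ∩ Set.Ioc s t) = ∑ j ∈ range J, mu (M + j) s t :=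
    sum_congr rfl fun j _ => (mu_eq _ _ _).symm
  rw [h4] at h1
  linarith

/-- **The tail law.** -/
theorem tail_law (hs : 0 < s) (hst : s ≤ t) :
    Tendsto (fun M : ℕ => volume.real (U M ∩ Set.Ioc s t) / wt M) atTop
      (𝓝 (2 * (Real.exp Real.eulerMascheroniConstant * Real.log 2 * (Real.log t - Real.log s)))) := by
  have hup := tail_tsum hs hst
  set L := Real.exp Real.eulerMascheroniConstant * Real.log 2 * (Real.log t - Real.log s) with hL
  have hL0 : 0 ≤ L := by
    have h1 : 0 ≤ Real.log t - Real.log s := by linarith [Real.log_le_log hs hst]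
    have h2 : 0 < Real.log 2 := Real.log_pos one_lt_two
    positivity
  obtain ⟨K, hK, hlow⟩ := tail_lower hs hst
  refine tendsto_order.2 ⟨fun a ha => ?_, fun b hb => ?_⟩
  · -- lower bound
    obtain ⟨J, hJ⟩ : ∃ J : ℕ, a < ∑ j ∈ range J, L * (1 / 2 : ℝ) ^ j := by
      have h1 : HasSum (fun j : ℕ => L * (1 / 2 : ℝ) ^ j) (L * 2) := by
        have := (hasSum_geometric_of_lt_one (r := (1 / 2 : ℝ)) (by norm_num) (by norm_num)).mul_left L
        norm_num at this
        simpa using this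
      have h2 := h1.tendsto_sum_nat.eventually_const_lt (show a < L * 2 by linarith)
      exact h2.exists
    have hwt : Tendsto wt atTop (𝓝 0) := by
      have h1 := tendsto_self_mul_const_pow_of_lt_one (r := (1 / 2 : ℝ)) (by norm_num) (by norm_num)
      have h2 := tendsto_pow_atTop_nhds_zero_of_lt_one (r := (1 / 2 : ℝ)) (by norm_num) (by norm_num)
      have h3 := h1.add h2
      rw [add_zero] at h3
      refine h3.congr fun m => ?_
      unfold wt
      rw [one_div, inv_pow]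
      ring
    have h3 : Tendsto (fun M : ℕ => ∑ j ∈ range J, mu (M + j) s t / wt M - K * J ^ 2 * wt M) atTop
        (𝓝 (∑ j ∈ range J, L * (1 / 2 : ℝ) ^ j - K * J ^ 2 * 0)) := by
      refine Tendsto.sub ?_ (hwt.const_mul _)
      refine tendsto_finsetSum _ fun j _ => ?_
      have h2 := ((mean hs hst).comp (tendsto_add_atTop_nat j)).mul (wt_div j)
      refine h2.congr fun M => ?_
      simp only [Function.comp]
      have := (wt_pos (M + j)).ne'
      have := (wt_pos M).ne'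
      field_simp
    rw [mul_zero, sub_zero] at h3
    filter_upwards [h3.eventually_const_lt hJ] with M hM
    refine hM.trans_le ?_
    have hw := wt_pos M
    rw [le_div_iff₀ hw, sub_mul, Finset.sum_mul]
    have h4 : ∑ j ∈ range J, mu (M + j) s t / wt M * wt M = ∑ j ∈ range J, mu (M + j) s t :=
      sum_congr rfl fun j _ => by field_simp
    rw [h4]
    have h5 := hlow M J
    calc _ = ∑ j ∈ range J, mu (M + j) s t - K * J ^ 2 * wt M ^ 2 := by ring
      _ ≤ _ := h5
  · filter_upwards [hup.eventually_lt_const hb] with M hM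
    refine lt_of_le_of_lt ?_ hM
    exact div_le_div_of_nonneg_right (tail_upper hs hst M) (wt_pos M).le

/-- **Two or more.** -/
theorem two_law (hs : 0 < s) (hst : s ≤ t) : ∃ C : ℝ, 0 < C ∧ ∀ M : ℕ,
    volume.real ({τ | ∃ m m' : ℕ, M ≤ m ∧ m < m' ∧ τ ∈ A m ∧ τ ∈ A m'} ∩ Set.Ioc s t) ≤
      C * wt M ^ 2 := by
  obtain ⟨K, hK, h⟩ := two_levels hs hst
  set b : ℕ → ℝ := fun j => ((j : ℝ) + 1) * (1 / 2) ^ j with hb
  have hb0 : ∀ j, 0 < b j := fun j => by rw [hb]; positivity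
  have hb1 : ∀ j, b j ≤ 1 := by
    intro j
    rw [hb]
    simp only
    rw [one_div, inv_pow, ← div_eq_mul_inv, div_le_one (by positivity)]
    exact_mod_cast Nat.lt_two_pow_self (n := j)
  set S := ∑' j, b j with hS
  have hS0 : 0 ≤ S := tsum_nonneg fun j => (hb0 j).le
  refine ⟨K * S * (2 * S) + 1, by positivity, fun M => ?_⟩
  have hw := wt_pos M
  have hsub : {τ | ∃ m m' : ℕ, M ≤ m ∧ m < m' ∧ τ ∈ A m ∧ τ ∈ A m'} ∩ Set.Ioc s t ⊆
      ⋃ j, ⋃ k, ((A (M + j) ∩ Set.Ioc s t) ∩ (A (M + (j + (k + 1))) ∩ Set.Ioc s t)) := by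
    rintro τ ⟨⟨m, m', h1, h2, h3, h4⟩, h5⟩
    rw [Set.mem_iUnion]
    refine ⟨m - M, ?_⟩
    rw [Set.mem_iUnion]
    refine ⟨m' - m - 1, ?_⟩
    have e1 : M + (m - M) = m := by omega
    have e2 : M + (m - M + (m' - m - 1 + 1)) = m' := by omega
    rw [e1, e2]
    exact ⟨⟨h3, h5⟩, ⟨h4, h5⟩⟩
  have hterm : ∀ j k : ℕ, volume ((A (M + j) ∩ Set.Ioc s t) ∩ (A (M + (j + (k + 1))) ∩ Set.Ioc s t)) ≤
      ENNReal.ofReal (K * wt M ^ 2 * b j * (2 * b k)) := by
    intro j k
    have h1 := h (M + j) (M + (j + (k + 1))) (by omega)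
    rw [pair_eq] at h1
    have hfin : volume ((A (M + j) ∩ Set.Ioc s t) ∩ (A (M + (j + (k + 1))) ∩ Set.Ioc s t)) ≠ ⊤ :=
      ne_top_of_le_ne_top (fin_Ioc (s := s) (t := t) (A (M + j))) (measure_mono Set.inter_subset_left)
    rw [← ofReal_measureReal hfin]
    refine ENNReal.ofReal_le_ofReal (h1.trans ?_)
    have h2 := wt_add M j
    have h3 := wt_add M (j + (k + 1))
    have h4 : (((j + (k + 1) : ℕ) : ℝ) + 1) * (1 / 2) ^ (j + (k + 1)) ≤ 2 * b k := by
      rw [hb]
      simp only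
      rw [pow_add, pow_succ]
      push_cast
      have h5 := hb1 j
      rw [hb] at h5
      simp only at h5
      have h6 : (0 : ℝ) < (1 / 2) ^ j := by positivity
      have h7 : (0 : ℝ) < (1 / 2) ^ k := by positivity
      have h8 : (1 / 2 : ℝ) ^ j ≤ 1 := pow_le_one₀ (by norm_num) (by norm_num)
      have h9 : ((j : ℝ) + (k + 1) + 1) * (1 / 2) ^ j ≤ 1 + (k + 1) := by nlinarith [Nat.cast_nonneg (α := ℝ) k]
      calc ((j : ℝ) + (k + 1) + 1) * ((1 / 2) ^ j * ((1 / 2) ^ k * (1 / 2))) =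
            (((j : ℝ) + (k + 1) + 1) * (1 / 2) ^ j) * ((1 / 2) ^ k * (1 / 2)) := by ring
        _ ≤ (1 + (k + 1)) * ((1 / 2) ^ k * (1 / 2)) := mul_le_mul_of_nonneg_right h9 (by positivity)
        _ ≤ 2 * (((k : ℝ) + 1) * (1 / 2) ^ k) := by nlinarith [Nat.cast_nonneg (α := ℝ) k]
    have h5 : wt (M + (j + (k + 1))) ≤ 2 * b k * wt M :=
      h3.trans (mul_le_mul_of_nonneg_right h4 hw.le)
    calc K * (wt (M + j) * wt (M + (j + (k + 1)))) ≤ K * ((b j * wt M) * (2 * b k * wt M)) := by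
          refine mul_le_mul_of_nonneg_left ?_ hK.le
          exact mul_le_mul h2 h5 (wt_pos _).le (by have := hb0 j; positivity)
      _ = _ := by ring
  have htot : volume ({τ | ∃ m m' : ℕ, M ≤ m ∧ m < m' ∧ τ ∈ A m ∧ τ ∈ A m'} ∩ Set.Ioc s t) ≤
      ENNReal.ofReal (K * wt M ^ 2 * S * (2 * S)) := by
    refine (measure_mono hsub).trans ((measure_iUnion_le _).trans ?_)
    have hsb : Summable b := summable_b
    calc ∑' j, volume (⋃ k, ((A (M + j) ∩ Set.Ioc s t) ∩ (A (M + (j + (k + 1))) ∩ Set.Ioc s t))) ≤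
          ∑' j, ENNReal.ofReal (K * wt M ^ 2 * b j * (2 * S)) := by
            refine ENNReal.tsum_le_tsum fun j => ?_
            refine (measure_iUnion_le _).trans ((ENNReal.tsum_le_tsum (hterm j)).trans ?_)
            have hj := hb0 j
            rw [← ENNReal.ofReal_tsum_of_nonneg (fun k => by have := hb0 k; positivity)
              ((hsb.mul_left 2).mul_left _), tsum_mul_left, tsum_mul_left]
      _ = ENNReal.ofReal (K * wt M ^ 2 * S * (2 * S)) := by
            have e : ∀ j, K * wt M ^ 2 * b j * (2 * S) = (K * wt M ^ 2 * (2 * S)) * b j := fun j => by ring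
            simp_rw [e]
            rw [← ENNReal.ofReal_tsum_of_nonneg (fun j => by have := hb0 j; positivity)
              (hsb.mul_left _), tsum_mul_left]
            congr 1
            ring
  have h1 := ENNReal.toReal_le_of_le_ofReal (by positivity) htot
  have h2 : volume.real ({τ | ∃ m m' : ℕ, M ≤ m ∧ m < m' ∧ τ ∈ A m ∧ τ ∈ A m'} ∩ Set.Ioc s t) ≤
      K * wt M ^ 2 * S * (2 * S) := h1
  nlinarith [sq_nonneg (wt M)]

/-- **Finiteness almost everywhere.** -/
theorem ae_fin : ∀ᵐ τ : ℝ, 0 < τ → {m : ℕ | τ ∈ A m}.Finite := by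
  have h1 : ∀ n : ℕ, ∀ᵐ τ : ℝ, τ ∈ Set.Ioc (1 / ((n : ℝ) + 1)) (n + 1) → {m : ℕ | τ ∈ A m}.Finite := by
    intro n
    have hn : (0 : ℝ) ≤ n := Nat.cast_nonneg n
    have hst : 1 / ((n : ℝ) + 1) ≤ n + 1 := by
      rw [div_le_iff₀ (by positivity)]; nlinarith
    have h2 := summable_mu (s := 1 / ((n : ℝ) + 1)) (t := n + 1) (by positivity) hst 0
    have h3 : ∑' m, volume (A m ∩ Set.Ioc (1 / ((n : ℝ) + 1)) (n + 1)) ≠ ⊤ := by
      have h4 : ∀ m, volume (A m ∩ Set.Ioc (1 / ((n : ℝ) + 1)) (n + 1)) =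
          ENNReal.ofReal (mu (0 + m) (1 / ((n : ℝ) + 1)) (n + 1)) := by
        intro m
        rw [zero_add, mu_eq, ofReal_measureReal (fin_Ioc _)]
      simp_rw [h4]
      rw [← ENNReal.ofReal_tsum_of_nonneg (fun j => mu_nonneg _ _ _) h2]
      exact ENNReal.ofReal_ne_top
    have h5 := measure_setOfPred_frequently_eq_zero (μ := volume)
      (p := fun m τ => τ ∈ A m ∩ Set.Ioc (1 / ((n : ℝ) + 1)) (n + 1)) h3
    have h6 : ∀ᵐ τ : ℝ, ¬ ∃ᶠ m in atTop, τ ∈ A m ∩ Set.Ioc (1 / ((n : ℝ) + 1)) (n + 1) := by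
      rw [ae_iff]
      simpa using h5
    filter_upwards [h6] with τ hτ hmem
    by_contra hinf
    apply hτ
    rw [Nat.frequently_atTop_iff_infinite]
    refine Set.Infinite.mono ?_ hinf
    intro m hm
    exact ⟨hm, hmem⟩
  filter_upwards [ae_all_iff.2 h1] with τ hτ h0
  obtain ⟨n, hn⟩ := exists_nat_gt (max τ (1 / τ))
  have hn1 : τ < n := lt_of_le_of_lt (le_max_left _ _) hn
  have hn2 : 1 / τ < n := lt_of_le_of_lt (le_max_right _ _) hn
  refine hτ n ⟨?_, by linarith⟩
  rw [div_lt_iff₀ h0] at hn2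
  rw [div_lt_iff₀ (by have := h0.trans hn1; linarith)]
  nlinarith

end

end Pool.Agent.Q138.FM
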