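import Pool.Agent.H305R2.Mean

/-!
# Very short windows

The Brun-Titchmarsh type bound for the number of integers with prime rough part in very short
intervals `(X, X + X ^ (1/2)]`.
-/

set_option autoImplicit false

namespace Pool.Agent.Q138.FM

open Finset Filter Topology MeasureTheory Pool.Agent.H305R2

/-- a smooth number which is larger than `z` has a divisor between `z` and `z p` -/
lemma exists_divisor {p : ℕ} (hp : 1 ≤ p) {z : ℝ} (hz : 1 ≤ z) :
    ∀ s : ℕ, s ∈ SM p → z < s → ∃ d : ℕ, d ∈ SM p ∧ d ∣ s ∧ z < d ∧ (d : ℝ) ≤ z * p := by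
  intro s
  induction s using Nat.strong_induction_on with
  | _ s ih =>
    intro hs hzs
    by_cases h : (s : ℝ) ≤ z * p
    · exact ⟨s, hs, dvd_rfl, hzs, h⟩
    · push Not at h
      have hs1 : s ≠ 1 := by
        rintro rfl
        norm_num at hzs
        linarith
      obtain ⟨r, hr, hrs⟩ := Nat.exists_prime_and_dvd hs1
      have hs0 : s ≠ 0 := (SM_pos hs).ne'
      have hrp : r < p + 1 := hs.2 r ((Nat.mem_primeFactorsList hs0).2 ⟨hr, hrs⟩)
      have hr0 : (0 : ℝ) < r := by exact_mod_cast hr.pos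
      have hrp' : (r : ℝ) ≤ p := by exact_mod_cast Nat.lt_succ_iff.1 hrp
      obtain ⟨k, rfl⟩ := hrs
      have hk : k ∈ SM p := by
        refine ⟨?_, ?_⟩
        · rintro rfl; simp at hs0
        · intro q hq
          refine hs.2 q ?_
          have hk0 : k ≠ 0 := by rintro rfl; simp at hs0
          rw [Nat.mem_primeFactorsList hs0]
          rw [Nat.mem_primeFactorsList hk0] at hq
          exact ⟨hq.1, hq.2.mul_left r⟩
      have hzk : z < k := by
        have h1 : z * p < (r : ℝ) * k := by exact_mod_cast h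
        have h2 : (r : ℝ) * k ≤ p * k := mul_le_mul_of_nonneg_right hrp' (by positivity)
        have hp0 : (0 : ℝ) < p := by exact_mod_cast hp
        nlinarith
      have hlt : k < r * k := by
        have := hr.two_le
        have hk0 : 0 < k := SM_pos hk
        nlinarith
      obtain ⟨d, h1, h2, h3, h4⟩ := ih k hlt hk hzk
      exact ⟨d, h1, h2.mul_left r, h3, h4⟩

lemma card_dvd (A B d : ℕ) (hd : 0 < d) (hAB : A ≤ B) :
    (((Finset.Ioc A B).filter (fun n => d ∣ n)).card : ℝ) ≤ (B - A : ℕ) * (d : ℝ)⁻¹ + 1 := by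
  have h1 : ((Finset.Ioc A B).filter (fun n => d ∣ n)).card ≤ (Finset.Ioc (A / d) (B / d)).card := by
    refine Finset.card_le_card_of_injOn (fun n => n / d) ?_ ?_
    · intro n hn
      rw [Finset.mem_coe, Finset.mem_filter, Finset.mem_Ioc] at hn
      obtain ⟨⟨h1, h2⟩, k, rfl⟩ := hn
      rw [Finset.mem_coe, Finset.mem_Ioc]
      simp only [Nat.mul_div_cancel_left _ hd]
      refine ⟨?_, ?_⟩
      · rw [Nat.div_lt_iff_lt_mul hd, mul_comm]; exact h1
      · rw [Nat.le_div_iff_mul_le hd, mul_comm]; exact h2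
    · intro n hn m hm h
      rw [Finset.mem_coe, Finset.mem_filter] at hn hm
      have h1 := Nat.div_mul_cancel hn.2
      have h2 := Nat.div_mul_cancel hm.2
      simp only at h
      rw [← h1, h, h2]
  rw [Nat.card_Ioc] at h1
  have h2 : ((B / d - A / d : ℕ) : ℝ) ≤ (B - A : ℕ) * (d : ℝ)⁻¹ + 1 := by
    rw [Nat.cast_sub (Nat.div_le_div_right hAB), Nat.cast_sub hAB]
    have hd0 : (0 : ℝ) < d := by exact_mod_cast hd
    have h3 : ((B / d : ℕ) : ℝ) ≤ B / d := Nat.cast_div_le
    have h4 : (A : ℝ) / d < ((A / d : ℕ) : ℝ) + 1 := by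
      rw [div_lt_iff₀ hd0]
      exact_mod_cast (Nat.div_lt_iff_lt_mul hd).1 (Nat.lt_succ_self (A / d))
    have h5 : ((B : ℝ) - A) * (d : ℝ)⁻¹ = B / d - A / d := by field_simp
    linarith
  exact le_trans (by exact_mod_cast h1) h2

/-- **Very short windows**: Brun–Titchmarsh type upper bound. -/
theorem window_tiny {c : ℝ} (hc : 0 < c) :
    ∃ K : ℝ, 0 < K ∧ ∀ᶠ p : ℕ in atTop, ∀ y : ℝ, c * p ≤ y → ∀ h : ℝ, Real.exp (-(y / 2)) ≤ h →
      h ≤ 1 → ∫ t in Set.Ioc y (y + h), ff p t ≤ K * h * (Real.log p / p) := by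
  obtain ⟨C0, hC01, hBT⟩ := Pool.Agent.Helper601.brun_titchmarsh
  set K1 := Real.exp Real.eulerMascheroniConstant + 1 with hK1
  have hK1pos : 0 < K1 := by positivity
  refine ⟨48 * C0 * K1 / c + 10, by positivity, ?_⟩
  have hV : ∀ᶠ p : ℕ in atTop, VV p / Real.log p < K1 :=
    VV_tendsto.eventually_lt_const (by rw [hK1]; linarith)
  have hZ : ∀ᶠ p : ℕ in atTop, ZZ p ≤ Real.exp (c / 32 * p) := ZZ_le_exp (by positivity)
  have hcast := tendsto_natCast_atTop_atTop (R := ℝ)
  have hdecay : ∀ (k : ℕ) (b e : ℝ), 0 < b → 0 < e → ∀ᶠ p : ℕ in atTop, (p : ℝ) ^ k * Real.exp (-(b * p)) < e := by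
    intro k b e hb he
    have h1 := (Real.tendsto_pow_mul_exp_neg_atTop_nhds_zero k).comp (hcast.const_mul_atTop hb)
    have h2 := h1.const_mul ((b ^ k)⁻¹)
    rw [mul_zero] at h2
    filter_upwards [h2.eventually_lt_const he] with p hp
    refine lt_of_le_of_lt (le_of_eq ?_) hp
    simp only [Function.comp]
    rw [mul_pow]
    field_simp
  filter_upwards [hV, hZ, hdecay 0 (c / 2) (1 / 2) (by positivity) (by norm_num),
    hdecay 1 (c / 32) 1 (by positivity) one_pos,
    hdecay 2 (c / 32) (1 / 2) (by positivity) (by positivity),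
    eventually_ge_atTop 3] with p hpV hpZ hd1 hd2 hd3 hp3 y hy h hh hh1
  have hp3' : (3 : ℝ) ≤ p := by exact_mod_cast hp3
  have hp0 : (0 : ℝ) < p := by linarith
  have hlog : 1 ≤ Real.log p := by
    rw [Real.le_log_iff_exp_le hp0]
    have := Real.exp_one_lt_d9
    linarith
  have hh0 : 0 < h := lt_of_lt_of_le (Real.exp_pos _) hh
  have hcp : 0 < c * p := by positivity
  have hy0 : 0 < y := lt_of_lt_of_le hcp hy
  set X := Real.exp y with hX
  have hX0 : 0 < X := Real.exp_pos _
  have hX1 : 1 ≤ X := Real.one_le_exp hy0.le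
  set A := ⌊X⌋₊ with hA
  set B := ⌊Real.exp (y + h)⌋₊ with hB
  have hYe : Real.exp (y + h) = X * Real.exp h := by rw [Real.exp_add]
  have hA1 : 1 ≤ A := Nat.floor_pos.2 hX1
  have hAle : (A : ℝ) ≤ X := Nat.floor_le hX0.le
  have hAgt : X < A + 1 := Nat.lt_floor_add_one X
  have hA1' : (1 : ℝ) ≤ A := by exact_mod_cast hA1
  have hAhalf : X / 2 ≤ A := by linarith
  have hBle : (B : ℝ) ≤ X * Real.exp h := by rw [← hYe]; exact Nat.floor_le (Real.exp_pos _).le
  have hBgt : X * Real.exp h < B + 1 := by rw [← hYe]; exact Nat.lt_floor_add_one _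
  have hAB : A ≤ B := Nat.floor_mono (Real.exp_le_exp.2 (by linarith))
  have heh1 : 1 + h ≤ Real.exp h := by have := Real.add_one_le_exp h; linarith
  have heh2 : Real.exp h ≤ 1 + 2 * h := by
    have h1 := Real.abs_exp_sub_one_sub_id_le (x := h) (by rw [abs_of_pos hh0]; exact hh1)
    have h2 := (abs_le.1 h1).2
    nlinarith
  -- the length of the interval
  have hhX' : Real.exp (y / 2) ≤ h * X := by
    have h1 : Real.exp (-(y / 2)) * X ≤ h * X := mul_le_mul_of_nonneg_right hh hX0.le
    have h2 : Real.exp (-(y / 2)) * X = Real.exp (y / 2) := by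
      rw [hX, ← Real.exp_add]; congr 1; ring
    linarith
  have hhX : 2 ≤ h * X := by
    rw [pow_zero, one_mul] at hd1
    have h1 : Real.exp (-(y / 2)) ≤ Real.exp (-(c / 2 * p)) := Real.exp_le_exp.2 (by nlinarith)
    have h2 : Real.exp (-(y / 2)) * Real.exp (y / 2) = 1 := by
      rw [← Real.exp_add]; simp
    have h3 : Real.exp (-(y / 2)) < 1 / 2 := lt_of_le_of_lt h1 hd1
    have h4 := Real.exp_pos (y / 2)
    have h5 : 2 ≤ Real.exp (y / 2) := by nlinarith
    linarith
  set D := B - (A - 1) with hD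
  have hDcast : (D : ℝ) = B - A + 1 := by
    have : D = B - A + 1 := by omega
    rw [this]
    push_cast [Nat.cast_sub hAB]
    ring
  have hDup : (D : ℝ) ≤ 3 * (h * X) := by
    rw [hDcast]
    have : X * Real.exp h ≤ X * (1 + 2 * h) := mul_le_mul_of_nonneg_left heh2 hX0.le
    linarith
  have hDlow : h * X ≤ D := by
    rw [hDcast]
    have : X * (1 + h) ≤ X * Real.exp h := mul_le_mul_of_nonneg_left heh1 hX0.le
    linarith
  have hDpos : (0 : ℝ) < D := by linarith
  set F := (Finset.Ioc (A - 1) B).filter (fun m => (roughPart p m).Prime) with hF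
  -- step 1
  have hstep1 : ∫ t in Set.Ioc y (y + h), ff p t ≤ 1 / (A : ℝ) * (F.card : ℝ) := by
    refine (window_upper hy0.le).trans ?_
    have hIcc : Finset.Icc A B = Finset.Ioc (A - 1) B := by
      ext x; simp only [Finset.mem_Icc, Finset.mem_Ioc]; omega
    rw [← hX, ← hA, ← hB, hIcc, Finset.card_eq_sum_ones]
    push_cast
    rw [Finset.mul_sum]
    refine Finset.sum_le_sum fun m hm => ?_
    rw [Finset.mem_filter, Finset.mem_Ioc] at hm
    rw [mul_one]
    refine one_div_le_one_div_of_le (by linarith) ?_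
    have : A ≤ m := by omega
    exact_mod_cast this
  have hAB' : A - 1 ≤ B := by omega
  set z := Real.exp (y / 8) with hz
  have hz0 : 0 < z := Real.exp_pos _
  have hz1 : 1 ≤ z := Real.one_le_exp (by positivity)
  have hDBig : ∀ s : ℝ, 0 < s → s ≤ z → Real.exp (y / 4) ≤ D / s := by
    intro s hs0 hsz
    rw [le_div_iff₀ hs0]
    have h1 : Real.exp (y / 4) * s ≤ Real.exp (y / 4) * z :=
      mul_le_mul_of_nonneg_left hsz (Real.exp_pos _).le
    have h2 : Real.exp (y / 4) * z ≤ Real.exp (y / 2) := by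
      rw [hz, ← Real.exp_add]
      exact Real.exp_le_exp.2 (by linarith)
    linarith
  -- small smooth part
  have hF1 : ((F.filter (fun n => ((n / roughPart p n : ℕ) : ℝ) ≤ z)).card : ℝ) ≤
      8 * C0 * D / y * VV p := by
    have e1 : ((F.filter (fun n => ((n / roughPart p n : ℕ) : ℝ) ≤ z)).card : ℝ) =
        ∑ n ∈ F, if ((n / roughPart p n : ℕ) : ℝ) ≤ z then (1 : ℝ) else 0 := by
      rw [Finset.card_filter]
      push_cast
      rfl
    rw [e1, hF, sum_rough_eq]
    have e2 : ∑ s ∈ SMz p (B : ℝ), ∑ q ∈ (Finset.Ioc ((A - 1) / s) (B / s)).filter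
        (fun q => q.Prime ∧ p < q),
        (if (((s * q) / roughPart p (s * q) : ℕ) : ℝ) ≤ z then (1 : ℝ) else 0) =
        ∑ s ∈ (SMz p (B : ℝ)).filter (fun s : ℕ => (s : ℝ) ≤ z),
          (((Finset.Ioc ((A - 1) / s) (B / s)).filter (fun q => q.Prime ∧ p < q)).card : ℝ) := by
      rw [Finset.sum_filter]
      refine Finset.sum_congr rfl fun s hs => ?_
      rw [mem_SMz (by positivity)] at hs
      have : ∀ q ∈ (Finset.Ioc ((A - 1) / s) (B / s)).filter (fun q => q.Prime ∧ p < q),
          (if (((s * q) / roughPart p (s * q) : ℕ) : ℝ) ≤ z then (1 : ℝ) else 0) =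
            if (s : ℝ) ≤ z then (1 : ℝ) else 0 := by
        intro q hq
        rw [Finset.mem_filter] at hq
        rw [roughPart_mul hs.1 hq.2.1 hq.2.2, Nat.mul_div_cancel _ hq.2.1.pos]
      rw [Finset.sum_congr rfl this]
      split_ifs <;> simp
    rw [e2]
    calc _ ≤ ∑ s ∈ (SMz p (B : ℝ)).filter (fun s : ℕ => (s : ℝ) ≤ z), 8 * C0 * D / y * (s : ℝ)⁻¹ := by
          refine Finset.sum_le_sum fun s hs => ?_
          rw [Finset.mem_filter, mem_SMz (by positivity)] at hs
          have hs0 : (0 : ℝ) < s := by exact_mod_cast SM_pos hs.1.1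
          have hsn : 0 < s := SM_pos hs.1.1
          obtain ⟨hc1, hc2⟩ := count_inner hBT p (A - 1) B s hsn hAB'
          rw [← hD] at hc2
          have hDs := hDBig s hs0 hs.2
          have hDs1 : 1 ≤ (D : ℝ) / s := le_trans (Real.one_le_exp (by positivity)) hDs
          have hN1 : 1 ≤ D / s := by
            rw [Nat.one_le_div_iff hsn]
            rw [le_div_iff₀ hs0, one_mul] at hDs1
            exact_mod_cast hDs1
          have hb := hc2 (by omega)
          have hNge : (D : ℝ) / s ≤ ((D / s + 1 : ℕ) : ℝ) := by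
            rw [div_le_iff₀ hs0]
            have : D ≤ (D / s + 1) * s :=
              ((Nat.div_lt_iff_lt_mul hsn).1 (Nat.lt_succ_self _)).le
            exact_mod_cast this
          have hNle : ((D / s + 1 : ℕ) : ℝ) ≤ 2 * ((D : ℝ) / s) := by
            push_cast
            have := @Nat.cast_div_le ℝ _ _ _ D s
            linarith
          have hlN : y / 4 ≤ Real.log ((D / s + 1 : ℕ) : ℝ) := by
            rw [Real.le_log_iff_exp_le (by positivity)]
            linarith
          refine hb.trans ?_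
          calc C0 * ((D / s + 1 : ℕ) : ℝ) / Real.log ((D / s + 1 : ℕ) : ℝ) ≤
              C0 * (2 * ((D : ℝ) / s)) / (y / 4) := by
                refine div_le_div₀ (by positivity) ?_ (by positivity) hlN
                exact mul_le_mul_of_nonneg_left hNle (by linarith)
            _ = 8 * C0 * D / y * (s : ℝ)⁻¹ := by field_simp; ring
      _ = 8 * C0 * D / y * ∑ s ∈ (SMz p (B : ℝ)).filter (fun s : ℕ => (s : ℝ) ≤ z), (s : ℝ)⁻¹ := by
          rw [Finset.mul_sum]
      _ ≤ _ := by
          refine mul_le_mul_of_nonneg_left (sum_le_VV p _ fun s hs => ?_) (by positivity)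
          rw [Finset.mem_filter, mem_SMz (by positivity)] at hs
          exact hs.1.1
  -- large smooth part
  have hzp : 0 < z * p := by positivity
  have hF2 : ((F.filter (fun n => ¬ ((n / roughPart p n : ℕ) : ℝ) ≤ z)).card : ℝ) ≤
      D * (z ^ (-(1 / 2) : ℝ) * ZZ p) + (z * p) ^ (1 / 2 : ℝ) * ZZ p := by
    set T := (SMz p (z * p)).filter (fun d : ℕ => z < (d : ℝ)) with hT
    have hsub : F.filter (fun n => ¬ ((n / roughPart p n : ℕ) : ℝ) ≤ z) ⊆
        T.biUnion (fun d => (Finset.Ioc (A - 1) B).filter (fun n => d ∣ n)) := by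
      intro n hn
      rw [Finset.mem_filter, hF, Finset.mem_filter] at hn
      obtain ⟨⟨hn1, hn2⟩, hn3⟩ := hn
      obtain ⟨_, s, hs, he⟩ := roughPart_prime hn2
      have hdiv : n / roughPart p n = s := Nat.div_eq_of_eq_mul_left hn2.pos he
      rw [hdiv, not_le] at hn3
      obtain ⟨d, h1, h2, h3, h4⟩ := exists_divisor (by omega) hz1 s hs hn3
      rw [Finset.mem_biUnion]
      refine ⟨d, ?_, ?_⟩
      · rw [hT, Finset.mem_filter, mem_SMz hzp.le]
        exact ⟨⟨h1, h4⟩, h3⟩
      · rw [Finset.mem_filter]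
        refine ⟨hn1, ?_⟩
        rw [he]
        exact h2.mul_right _
    have h1 : ((F.filter (fun n => ¬ ((n / roughPart p n : ℕ) : ℝ) ≤ z)).card : ℝ) ≤
        ∑ d ∈ T, (D * (d : ℝ)⁻¹ + 1) := by
      have h2 := (Finset.card_le_card hsub).trans Finset.card_biUnion_le
      have h3 : ((F.filter (fun n => ¬ ((n / roughPart p n : ℕ) : ℝ) ≤ z)).card : ℝ) ≤
          ∑ d ∈ T, (((Finset.Ioc (A - 1) B).filter (fun n => d ∣ n)).card : ℝ) := by
        exact_mod_cast h2
      refine h3.trans (Finset.sum_le_sum fun d hd => ?_)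
      rw [hT, Finset.mem_filter, mem_SMz hzp.le] at hd
      exact card_dvd (A - 1) B d (SM_pos hd.1.1) hAB'
    refine h1.trans ?_
    rw [Finset.sum_add_distrib, ← Finset.mul_sum]
    refine add_le_add ?_ ?_
    · refine mul_le_mul_of_nonneg_left (tail_le p hz0 _ fun s hs => ?_) hDpos.le
      rw [hT, Finset.mem_filter, mem_SMz hzp.le] at hs
      exact ⟨hs.1.1, hs.2.le⟩
    · rw [Finset.sum_const, nsmul_eq_mul, mul_one]
      refine card_le p hzp _ fun s hs => ?_
      rw [hT, Finset.mem_filter, mem_SMz hzp.le] at hs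
      exact hs.1
  have hFcard : (F.card : ℝ) ≤ 8 * C0 * D / y * VV p +
      (D * (z ^ (-(1 / 2) : ℝ) * ZZ p) + (z * p) ^ (1 / 2 : ℝ) * ZZ p) := by
    have h1 := Finset.card_filter_add_card_filter_not (s := F) (fun n => ((n / roughPart p n : ℕ) : ℝ) ≤ z)
    have h2 : (F.card : ℝ) = ((F.filter (fun n => ((n / roughPart p n : ℕ) : ℝ) ≤ z)).card : ℝ) +
        ((F.filter (fun n => ¬ ((n / roughPart p n : ℕ) : ℝ) ≤ z)).card : ℝ) := by
      exact_mod_cast h1.symm
    linarith
  -- final assembly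
  have hZ0 := ZZ_nonneg p
  have hV0 := VV_nonneg p
  have hVle : VV p ≤ K1 * Real.log p := by
    rw [div_lt_iff₀ (by linarith)] at hpV
    exact hpV.le
  have hAinv : 1 / (A : ℝ) ≤ 2 / X := by
    rw [div_le_div_iff₀ (by linarith) hX0]
    linarith
  have hz2 : z ^ (-(1 / 2) : ℝ) = Real.exp (-(y / 16)) := by
    rw [hz, ← Real.exp_mul]; congr 1; ring
  have hzp2 : (z * p) ^ (1 / 2 : ℝ) ≤ Real.exp (y / 16) * p := by
    rw [Real.mul_rpow hz0.le hp0.le, hz, ← Real.exp_mul]
    have h1 : y / 8 * (1 / 2) = y / 16 := by ring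
    rw [h1]
    refine mul_le_mul_of_nonneg_left ?_ (Real.exp_pos _).le
    calc (p : ℝ) ^ (1 / 2 : ℝ) ≤ (p : ℝ) ^ (1 : ℝ) :=
          Real.rpow_le_rpow_of_exponent_le (by linarith) (by norm_num)
      _ = p := Real.rpow_one _
  have hexp1 : Real.exp (-(y / 16)) * ZZ p ≤ Real.log p / p := by
    have h1 : Real.exp (-(y / 16)) * ZZ p ≤ Real.exp (-(c / 32 * p)) := by
      calc Real.exp (-(y / 16)) * ZZ p ≤ Real.exp (-(y / 16)) * Real.exp (c / 32 * p) :=
            mul_le_mul_of_nonneg_left hpZ (Real.exp_pos _).le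
        _ = Real.exp (-(y / 16) + c / 32 * p) := by rw [Real.exp_add]
        _ ≤ _ := Real.exp_le_exp.2 (by linarith)
    rw [pow_one] at hd2
    rw [le_div_iff₀ hp0]
    calc Real.exp (-(y / 16)) * ZZ p * p ≤ Real.exp (-(c / 32 * p)) * p :=
          mul_le_mul_of_nonneg_right h1 hp0.le
      _ ≤ 1 := by rw [mul_comm]; exact hd2.le
      _ ≤ _ := hlog
  have hexp2 : Real.exp (y / 16) * p * ZZ p / X ≤ h * (Real.log p / p) / 2 := by
    have h0 : Real.exp (y / 16) * p * ZZ p / X = Real.exp (-(y / 2)) * (p * (Real.exp (-(7 * y / 16)) * ZZ p)) := by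
      have : X = Real.exp (y / 16) * Real.exp (y / 2) * Real.exp (7 * y / 16) := by
        rw [hX, ← Real.exp_add, ← Real.exp_add]; congr 1; ring
      rw [this, Real.exp_neg, Real.exp_neg]
      field_simp
    rw [h0]
    have h1 : Real.exp (-(7 * y / 16)) * ZZ p ≤ Real.exp (-(c / 32 * p)) := by
      calc Real.exp (-(7 * y / 16)) * ZZ p ≤ Real.exp (-(7 * y / 16)) * Real.exp (c / 32 * p) :=
            mul_le_mul_of_nonneg_left hpZ (Real.exp_pos _).le
        _ = Real.exp (-(7 * y / 16) + c / 32 * p) := by rw [Real.exp_add]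
        _ ≤ _ := Real.exp_le_exp.2 (by linarith)
    have h2 : p * (Real.exp (-(7 * y / 16)) * ZZ p) ≤ (Real.log p / p) / 2 := by
      have h3 : (p : ℝ) * (Real.exp (-(7 * y / 16)) * ZZ p) ≤ p * Real.exp (-(c / 32 * p)) :=
        mul_le_mul_of_nonneg_left h1 hp0.le
      have h4 : (p : ℝ) * Real.exp (-(c / 32 * p)) ≤ (1 / p) / 2 := by
        rw [div_div, le_div_iff₀ (by positivity)]
        have h5 : (p : ℝ) ^ 2 * Real.exp (-(c / 32 * p)) * 2 ≤ 1 := by linarith
        calc (p : ℝ) * Real.exp (-(c / 32 * p)) * (p * 2) =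
            (p : ℝ) ^ 2 * Real.exp (-(c / 32 * p)) * 2 := by ring
          _ ≤ 1 := h5
      have h6 : (1 / (p : ℝ)) / 2 ≤ (Real.log p / p) / 2 := by
        refine div_le_div_of_nonneg_right ?_ (by norm_num)
        exact div_le_div_of_nonneg_right hlog hp0.le
      linarith
    have h3 : 0 ≤ (Real.log p / p) / 2 := by positivity
    calc Real.exp (-(y / 2)) * (p * (Real.exp (-(7 * y / 16)) * ZZ p)) ≤ h * ((Real.log p / p) / 2) :=
          mul_le_mul hh h2 (by positivity) hh0.le
      _ = _ := by ring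
  calc ∫ t in Set.Ioc y (y + h), ff p t ≤ 1 / (A : ℝ) * (8 * C0 * D / y * VV p +
        (D * (z ^ (-(1 / 2) : ℝ) * ZZ p) + (z * p) ^ (1 / 2 : ℝ) * ZZ p)) :=
        hstep1.trans (mul_le_mul_of_nonneg_left hFcard (by positivity))
    _ ≤ 2 / X * (8 * C0 * (3 * (h * X)) / (c * p) * (K1 * Real.log p) +
        (3 * (h * X) * (Real.log p / p) + Real.exp (y / 16) * p * ZZ p)) := by
        refine mul_le_mul hAinv ?_ (by positivity) (by positivity)
        refine add_le_add ?_ (add_le_add ?_ ?_)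
        · refine mul_le_mul ?_ hVle hV0 (by positivity)
          refine div_le_div₀ (by positivity) ?_ (by positivity) hy
          exact mul_le_mul_of_nonneg_left hDup (by positivity)
        · rw [hz2]
          exact mul_le_mul hDup hexp1 (by positivity) (by positivity)
        · exact mul_le_mul_of_nonneg_right hzp2 hZ0
    _ = (48 * C0 * K1 / c + 6) * h * (Real.log p / p) + 2 * (Real.exp (y / 16) * p * ZZ p / X) := by
        field_simp
        ring
    _ ≤ (48 * C0 * K1 / c + 6) * h * (Real.log p / p) + 2 * (h * (Real.log p / p) / 2) := by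
        linarith
    _ ≤ (48 * C0 * K1 / c + 10) * h * (Real.log p / p) := by
        have : 0 ≤ h * (Real.log p / p) := by positivity
        nlinarith

end Pool.Agent.Q138.FM
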