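import Pool.Agent.Q138.FM.Tail
import Pool.Agent.Q273.CG.MD2

/-!
# The exceptional set: category and dimension
-/

set_option autoImplicit false

namespace Pool.Agent.Q138.FM

open Finset Filter Topology MeasureTheory Pool.Agent.H305R2

/-- the integer part of `a ^ (2 ^ m) + 1` -/
noncomputable def NB (m : ℕ) (a : ℝ) : ℕ := ⌊a ^ (2 ^ m) + 1⌋₊

lemma NB_exp (m : ℕ) (τ : ℝ) : NB m (Real.exp τ) = ⌊Real.exp (2 ^ m * τ) + 1⌋₊ := by
  unfold NB
  rw [← Real.exp_nat_mul]
  push_cast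
  rfl

lemma mem_A (m : ℕ) (τ : ℝ) : τ ∈ A m ↔ (roughPart (2 ^ (m + 1)) (NB m (Real.exp τ))).Prime := by
  rw [NB_exp]; rfl

/-- finiteness for almost every base -/
theorem ae_base : ∀ᵐ a : ℝ, 1 < a → {m : ℕ | (roughPart (2 ^ (m + 1)) (NB m a)).Prime}.Finite := by
  have h1 := ae_fin
  rw [ae_iff] at h1 ⊢
  have h2 := addHaar_image_eq_zero_of_differentiableOn_of_addHaar_eq_zero (μ := volume)
    (f := Real.exp) (Real.differentiable_exp.differentiableOn) h1
  refine measure_mono_null ?_ h2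
  intro a ha
  rw [Set.mem_ofPred_eq, Classical.not_imp] at ha
  refine ⟨Real.log a, ?_, Real.exp_log (by linarith [ha.1])⟩
  rw [Set.mem_ofPred_eq, Classical.not_imp]
  refine ⟨Real.log_pos ha.1, ?_⟩
  simp_rw [mem_A]
  rw [Real.exp_log (by linarith [ha.1])]
  exact ha.2

lemma rough_of_prime {k q : ℕ} (hq : q.Prime) (h : k < q) : roughPart k q = q := by
  unfold roughPart
  rw [Nat.primeFactorsList_prime hq]
  simp [h]

lemma NB_large {a : ℝ} (ha : 1 < a) : ∀ᶠ m : ℕ in atTop, 2 ^ (m + 1) < NB m a := by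
  have h1 := tendsto_self_mul_const_pow_of_lt_one (r := 1 / a) (by positivity) (by
    rw [div_lt_one (by linarith)]; exact ha)
  have h2 : Tendsto (fun m : ℕ => 2 ^ m) atTop (atTop : Filter ℕ) :=
    tendsto_pow_atTop_atTop_of_one_lt (by norm_num)
  have h3 := (h1.comp h2).eventually_lt_const (show (0 : ℝ) < 1 / 2 by norm_num)
  filter_upwards [h3] with m hm
  simp only [Function.comp] at hm
  unfold NB
  rw [← Nat.succ_le_iff, Nat.le_floor_iff (by positivity)]
  push_cast at hm ⊢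
  rw [one_div, inv_pow, ← div_eq_mul_inv, div_lt_iff₀ (by positivity)] at hm
  rw [pow_succ]
  linarith

/-- comeager -/
theorem comeager : {a : ℝ | 1 < a → ∃ᶠ m in atTop, (NB m a).Prime} ∈ residual ℝ := by
  set V : ℕ → Set ℝ := fun M => {a : ℝ | a < 1} ∪ ⋃ m, ⋃ q : ℕ,
    {a : ℝ | M ≤ m ∧ q.Prime ∧ 1 < a ∧ (q : ℝ) - 1 < a ^ (2 ^ m) ∧ a ^ (2 ^ m) < q} with hV
  have hopen : ∀ M, IsOpen (V M) := by
    intro M
    refine (isOpen_lt continuous_id continuous_const).union ?_
    refine isOpen_iUnion fun m => isOpen_iUnion fun q => ?_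
    by_cases h : M ≤ m ∧ q.Prime
    · have e : {a : ℝ | M ≤ m ∧ q.Prime ∧ 1 < a ∧ (q : ℝ) - 1 < a ^ (2 ^ m) ∧ a ^ (2 ^ m) < q} =
          {a : ℝ | 1 < a} ∩ ({a : ℝ | (q : ℝ) - 1 < a ^ (2 ^ m)} ∩ {a : ℝ | a ^ (2 ^ m) < (q : ℝ)}) := by
        ext a
        simp only [Set.mem_ofPred_eq, Set.mem_inter_iff]
        tauto
      rw [e]
      exact (isOpen_lt continuous_const continuous_id).inter
        ((isOpen_lt continuous_const (continuous_pow _)).inter
          (isOpen_lt (continuous_pow _) continuous_const))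
    · have e : {a : ℝ | M ≤ m ∧ q.Prime ∧ 1 < a ∧ (q : ℝ) - 1 < a ^ (2 ^ m) ∧ a ^ (2 ^ m) < q} = ∅ := by
        ext a
        simp only [Set.mem_ofPred_eq, Set.mem_empty_iff_false, iff_false]
        tauto
      rw [e]
      exact isOpen_empty
  have hdense : ∀ M, Dense (V M) := by
    intro M
    rw [dense_iff_exists_between]
    intro x y hxy
    rcases lt_or_ge x 1 with hx | hx
    · obtain ⟨a, h1, h2⟩ := exists_between (show x < min 1 y from lt_min hx hxy)
      exact ⟨a, Or.inl (h2.trans_le (min_le_left _ _)), h1, h2.trans_le (min_le_right _ _)⟩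
    · obtain ⟨z, hz1, hz2⟩ := exists_between hxy
      have hz0 : 1 < z := by linarith
      have hpow2 : Tendsto (fun m : ℕ => 2 ^ m) atTop (atTop : Filter ℕ) :=
        tendsto_pow_atTop_atTop_of_one_lt (by norm_num)
      have h1 : ∀ᶠ m : ℕ in atTop, 4 ≤ (y / z) ^ (2 ^ m) :=
        ((tendsto_pow_atTop_atTop_of_one_lt (by rw [lt_div_iff₀ (by linarith)]; linarith :
          1 < y / z)).comp hpow2).eventually_ge_atTop 4
      have h2 : ∀ᶠ m : ℕ in atTop, 2 ≤ z ^ (2 ^ m) :=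
        ((tendsto_pow_atTop_atTop_of_one_lt hz0).comp hpow2).eventually_ge_atTop 2
      obtain ⟨m, hm1, hm2, hm3⟩ := (h1.and (h2.and (eventually_ge_atTop M))).exists
      set X := z ^ (2 ^ m) with hX
      have hY : 4 * X ≤ y ^ (2 ^ m) := by
        rw [div_pow, le_div_iff₀ (by positivity)] at hm1
        exact hm1
      obtain ⟨q, hq, hq1, hq2⟩ := Nat.exists_prime_lt_and_le_two_mul (⌈X⌉₊ + 1) (by omega)
      have hq1' : ((⌈X⌉₊ : ℝ) + 1) < q := by exact_mod_cast hq1
      have hq2' : (q : ℝ) ≤ 2 * ((⌈X⌉₊ : ℝ) + 1) := by exact_mod_cast hq2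
      have hc1 : X ≤ (⌈X⌉₊ : ℝ) := Nat.le_ceil X
      have hc2 : (⌈X⌉₊ : ℝ) < X + 1 := Nat.ceil_lt_add_one (by linarith)
      have hqpos : (0 : ℝ) ≤ (q : ℝ) - 1 / 2 := by linarith
      refine ⟨((q : ℝ) - 1 / 2) ^ (((2 ^ m : ℕ) : ℝ)⁻¹), ?_, ?_, ?_⟩
      · right
        rw [Set.mem_iUnion]
        refine ⟨m, Set.mem_iUnion.2 ⟨q, ?_⟩⟩
        have e : (((q : ℝ) - 1 / 2) ^ (((2 ^ m : ℕ) : ℝ)⁻¹)) ^ (2 ^ m) = (q : ℝ) - 1 / 2 :=
          Real.rpow_inv_natCast_pow hqpos (by positivity)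
        refine ⟨hm3, hq, ?_, ?_, ?_⟩
        · refine Real.one_lt_rpow (by linarith) (by positivity)
        · rw [e]; linarith
        · rw [e]; linarith
      · refine hz1.trans ?_
        refine lt_of_pow_lt_pow_left₀ (2 ^ m) (Real.rpow_nonneg hqpos _) ?_
        rw [Real.rpow_inv_natCast_pow hqpos (by positivity), ← hX]
        linarith
      · refine lt_of_pow_lt_pow_left₀ (2 ^ m) (by linarith) ?_
        rw [Real.rpow_inv_natCast_pow hqpos (by positivity)]
        linarith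
  have hres : ⋂ M, V M ∈ residual ℝ :=
    (countable_iInter_mem).2 fun M => residual_of_dense_open (hopen M) (hdense M)
  refine Filter.mem_of_superset hres ?_
  intro a ha h1
  rw [Filter.frequently_atTop]
  intro M
  have h2 := Set.mem_iInter.1 ha M
  rcases h2 with h2 | h2
  · exact absurd h2 (by simp only [Set.mem_ofPred_eq]; linarith)
  · rw [Set.mem_iUnion] at h2
    obtain ⟨m, h2⟩ := h2
    rw [Set.mem_iUnion] at h2
    obtain ⟨q, h3, h4, h5, h6, h7⟩ := h2
    refine ⟨m, h3, ?_⟩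
    have : NB m a = q := by
      unfold NB
      rw [Nat.floor_eq_iff (by positivity)]
      constructor <;> linarith
    rw [this]
    exact h4

/-- the record scale tends to infinity -/
lemma f_tendsto : Tendsto Pool.Agent.Q273.CG.f atTop atTop := by
  have hl := Real.tendsto_log_atTop
  have hl2 := hl.comp hl
  have hl3 := hl.comp hl2
  have hl4 := hl.comp hl3
  refine tendsto_atTop_mono' atTop ?_ hl4
  filter_upwards [hl.eventually_ge_atTop 1, hl2.eventually_ge_atTop 1, hl3.eventually_ge_atTop 1,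
    hl4.eventually_ge_atTop 0] with x h1 h2 h3 h4
  simp only [Function.comp] at h1 h2 h3 h4 ⊢
  unfold Pool.Agent.Q273.CG.f
  set a := Real.log x
  set b := Real.log a
  set c := Real.log b
  set d := Real.log c
  have hcb : c ≤ b := by
    have := Real.log_le_sub_one_of_pos (show 0 < b by linarith)
    linarith
  rw [le_div_iff₀ (by positivity)]
  have h5 : c ^ 2 ≤ b ^ 2 := pow_le_pow_left₀ (by linarith) hcb 2
  have h6 : d * c ^ 2 ≤ d * b ^ 2 := mul_le_mul_of_nonneg_left h5 h4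
  have h7 : 0 ≤ d * b ^ 2 := by positivity
  nlinarith

/-- dimension one -/
theorem dim_one : ∃ k : ℕ, 1 ≤ k ∧ ∀ u v : ℝ, 1 < u → u < v →
    dimH {a : ℝ | u < a ∧ a < v ∧ ∀ᶠ n in atTop, (NB (k * n) a).Prime} = 1 := by
  obtain ⟨C, hC, _, h⟩ := Pool.Agent.Q273.CG.mills_dist_both
  obtain ⟨k, hk⟩ := pow_unbounded_of_one_lt C (show (1 : ℝ) < 2 by norm_num)
  have hk1 : 1 ≤ k := by
    rcases Nat.eq_zero_or_pos k with h0 | h0
    · rw [h0, pow_zero] at hk; linarith
    · exact h0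
  refine ⟨k, hk1, fun u v hu huv => le_antisymm ?_ ?_⟩
  · calc dimH _ ≤ dimH (Set.univ : Set ℝ) := dimH_mono (Set.subset_univ _)
      _ = 1 := Real.dimH_univ
  · have hx : Tendsto (fun n : ℕ => ((2 ^ (k * n) : ℕ) : ℝ)) atTop atTop := by
      refine (tendsto_natCast_atTop_atTop (R := ℝ)).comp ?_
      refine (tendsto_pow_atTop_atTop_of_one_lt (r := (2 : ℕ)) (by norm_num)).comp ?_
      exact tendsto_id.const_mul_atTop' (by omega)
    have h1 := h (fun n => ((2 ^ (k * n) : ℕ) : ℝ)) (fun n => by positivity) (fun n => by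
      push_cast
      rw [mul_add, pow_add, mul_one, mul_comm ((2 : ℝ) ^ (k * n))]
      exact mul_le_mul_of_nonneg_right hk.le (by positivity)) u v hu huv (fun _ => 1) (by
      intro c hc
      have h2 : Tendsto (fun n : ℕ => u ^ (((2 ^ (k * n) : ℕ) : ℝ))) atTop atTop :=
        (tendsto_rpow_atTop_of_base_gt_one u hu).comp hx
      have h3 := ((f_tendsto.comp h2).const_mul_atTop hc).eventually_ge_atTop 1
      filter_upwards [h3] with n hn
      simpa using hn)
    rw [← h1]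
    refine dimH_mono ?_
    rintro a ⟨h2, h3, c, _, h4⟩
    refine ⟨h2, h3, ?_⟩
    filter_upwards [h4] with n hn
    have h5 := hn.1
    unfold NB
    rw [Nat.floor_add_one (pow_nonneg (by linarith) _)]
    rw [Real.rpow_natCast] at h5
    exact h5

end Pool.Agent.Q138.FM
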